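import Pool.Agent.Y757.LL.General
import Pool.Agent.Y757.LS.G

/-!
# The local bound for the Riemann zeta function
-/

set_option autoImplicit false

open Complex Filter Topology Set Metric

namespace Pool.Agent.Y757.LL

noncomputable section

lemma z1_eq_mul {s : ℂ} (hs : s ≠ 1) : riemannZeta₁ s = (s - 1) * riemannZeta s := by
  have h := LS.GG_of_ne hs
  unfold LS.GG at h
  by_cases h3 : s + 3 = 0
  · -- at `s = -3`
    have h1 : Continuous riemannZeta₁ := differentiable_riemannZeta₁.continuous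
    have h2 : ∀ᶠ w in 𝓝[≠] s, riemannZeta₁ w = (w - 1) * riemannZeta w := by
      have h4 : ∀ᶠ w in 𝓝[≠] s, w ≠ 1 := by
        filter_upwards [nhdsWithin_le_nhds (isOpen_ne.mem_nhds hs)] with w hw using hw
      filter_upwards [self_mem_nhdsWithin, h4] with w hw hw1
      have h5 := LS.GG_of_ne hw1
      unfold LS.GG at h5
      have h6 : w + 3 ≠ 0 := by
        intro h7
        apply hw
        rw [mem_singleton_iff]
        have : w + 3 = s + 3 := by rw [h7, h3]
        exact add_right_cancel this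
      field_simp at h5
      exact h5
    have h7 : Tendsto riemannZeta₁ (𝓝[≠] s) (𝓝 (riemannZeta₁ s)) :=
      (h1.tendsto s).mono_left nhdsWithin_le_nhds
    have h8 : Tendsto (fun w => (w - 1) * riemannZeta w) (𝓝[≠] s)
        (𝓝 ((s - 1) * riemannZeta s)) := by
      have h9 : ContinuousAt (fun w => (w - 1) * riemannZeta w) s :=
        (by fun_prop : ContinuousAt (fun w : ℂ => w - 1) s).mul
          (differentiableAt_riemannZeta hs).continuousAt
      exact h9.tendsto.mono_left nhdsWithin_le_nhds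
    exact tendsto_nhds_unique (h7.congr' h2) h8
  · field_simp at h
    exact h

lemma logDeriv_bound : ∃ A : ℝ, 1 ≤ A ∧ ∀ s : ℂ, 9 / 8 ≤ s.re → 1 ≤ ‖s - 1‖ →
    ‖deriv riemannZeta₁ s / riemannZeta₁ s‖ ≤ A := by
  have h98 : (1:ℝ) < ((9 / 8 : ℝ) : ℂ).re := by rw [ofReal_re]; norm_num
  have hsum := ArithmeticFunction.LSeriesSummable_vonMangoldt h98
  set K : ℝ := ∑' n, ‖LSeries.term (fun n => (ArithmeticFunction.vonMangoldt n : ℂ))
    ((9 / 8 : ℝ) : ℂ) n‖ with hK
  refine ⟨max (K + 1) 1, le_max_right _ _, fun s hs hs1 => ?_⟩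
  have hs' : 1 < s.re := by linarith
  have hne1 : s ≠ 1 := by
    rintro rfl
    simp at hs1
    linarith
  have hz0 : riemannZeta s ≠ 0 := riemannZeta_ne_zero_of_one_le_re hs'.le
  have hs10 : s - 1 ≠ 0 := sub_ne_zero.2 hne1
  have hd : deriv riemannZeta₁ s = riemannZeta s + (s - 1) * deriv riemannZeta s := by
    have h1 : HasDerivAt (fun w => (w - 1) * riemannZeta w)
        (1 * riemannZeta s + (s - 1) * deriv riemannZeta s) s :=
      ((hasDerivAt_id s).sub_const 1).mul (differentiableAt_riemannZeta hne1).hasDerivAt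
    have h2 : riemannZeta₁ =ᶠ[𝓝 s] fun w => (w - 1) * riemannZeta w := by
      filter_upwards [isOpen_ne.mem_nhds hne1] with w hw using z1_eq_mul hw
    rw [h2.deriv_eq, h1.deriv, one_mul]
  have e : deriv riemannZeta₁ s / riemannZeta₁ s =
      (s - 1)⁻¹ - (-(deriv riemannZeta s / riemannZeta s)) := by
    rw [hd, z1_eq_mul hne1]
    field_simp
    ring
  have h1 : ‖-(deriv riemannZeta s / riemannZeta s)‖ ≤ K := by
    have h2 := ArithmeticFunction.LSeries_vonMangoldt_eq_deriv_riemannZeta_div hs'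
    have h3 : -(deriv riemannZeta s / riemannZeta s) = -deriv riemannZeta s / riemannZeta s := by
      ring
    rw [h3, ← h2, LSeries]
    have h4 : ∀ n, ‖LSeries.term (fun n => (ArithmeticFunction.vonMangoldt n : ℂ)) s n‖ ≤
        ‖LSeries.term (fun n => (ArithmeticFunction.vonMangoldt n : ℂ)) ((9 / 8 : ℝ) : ℂ) n‖ :=
      fun n => LSeries.norm_term_le_of_re_le_re _ (by rw [ofReal_re]; exact hs) n
    exact tsum_of_norm_bounded hsum.norm.hasSum h4
  rw [e]
  refine (norm_sub_le _ _).trans (le_trans ?_ (le_max_left _ _))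
  have h2 : ‖(s - 1)⁻¹‖ ≤ 1 := by
    rw [norm_inv]
    exact inv_le_one_of_one_le₀ hs1
  linarith

/-- the data at height `t` -/
lemma zeta_data : ∃ C1 A t₀ : ℝ, 1 ≤ C1 ∧ 1 ≤ A ∧ 10 ≤ t₀ ∧ ∀ a t : ℝ, 1 / 2 ≤ a → a ≤ 1 → t₀ ≤ t →
    riemannZeta₁ (a + (3 / 4 : ℝ) + t * I) ≠ 0 ∧
    (∀ z ∈ closedBall ((a : ℂ) + (3 / 4 : ℝ) + t * I) 1,
      ‖riemannZeta₁ z‖ ≤ Real.exp (5 * Real.log t) * ‖riemannZeta₁ (a + (3 / 4 : ℝ) + t * I)‖) ∧
    (∀ z ∈ closedBall ((a : ℂ) + (3 / 4 : ℝ) + t * I) (1 / 8),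
      ‖deriv riemannZeta₁ z / riemannZeta₁ z‖ ≤ C1) ∧
    ‖riemannZeta₁ (a + (3 / 4 : ℝ) + t * I)‖ ≤ 2 * A * t := by
  obtain ⟨C1, hC1, hld⟩ := logDeriv_bound
  obtain ⟨A, hA, hzb⟩ := LS.zeta_bounds (a := 5 / 4) (by norm_num)
  obtain ⟨K, hK, hg⟩ := LS.GG_growth
  refine ⟨C1, A, max 10 (32 * A * K), hC1, hA, le_max_left _ _, ?_⟩
  intro a t ha1 ha2 ht
  have ht10 : 10 ≤ t := (le_max_left _ _).trans ht
  have htK : 32 * A * K ≤ t := (le_max_right _ _).trans ht
  set c : ℂ := (a : ℂ) + (3 / 4 : ℝ) + t * I with hc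
  have hcre : c.re = a + 3 / 4 := by simp [hc]
  have hcim : c.im = t := by simp [hc]
  have hc1 : c ≠ 1 := by
    intro h
    have := congrArg Complex.im h
    rw [hcim, one_im] at this
    linarith
  obtain ⟨hz1, hz2⟩ := hzb c (by rw [hcre]; linarith)
  have hA0 : 0 < A := by linarith
  have hzpos : 0 < ‖riemannZeta c‖ := lt_of_lt_of_le (by positivity) hz2
  have hFc : riemannZeta₁ c = (c - 1) * riemannZeta c := z1_eq_mul hc1
  have hcn1 : t ≤ ‖c - 1‖ := by
    have := Complex.abs_im_le_norm (c - 1)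
    rw [sub_im, hcim, one_im, sub_zero, abs_of_nonneg (by linarith)] at this
    exact this
  have hcn2 : ‖c - 1‖ ≤ 2 * t := by
    refine (Complex.norm_le_abs_re_add_abs_im _).trans ?_
    rw [sub_re, sub_im, hcre, hcim, one_re, one_im, sub_zero, abs_of_nonneg (by linarith : 0 ≤ t),
      abs_of_nonneg (by linarith)]
    linarith
  have hFc1 : t / A ≤ ‖riemannZeta₁ c‖ := by
    rw [hFc, norm_mul]
    calc t / A = t * (1 / A) := by ring
      _ ≤ ‖c - 1‖ * ‖riemannZeta c‖ := by gcongr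
  have hFc2 : ‖riemannZeta₁ c‖ ≤ 2 * A * t := by
    rw [hFc, norm_mul]
    calc ‖c - 1‖ * ‖riemannZeta c‖ ≤ 2 * t * A := by gcongr
      _ = 2 * A * t := by ring
  refine ⟨norm_pos_iff.1 (lt_of_lt_of_le (by positivity) hFc1), ?_, ?_, hFc2⟩
  · intro z hz
    rw [mem_closedBall, dist_eq_norm] at hz
    have hzre : -1 ≤ z.re := by
      have h1 := (Complex.abs_re_le_norm (z - c)).trans hz
      rw [sub_re, hcre] at h1
      linarith [(abs_le.1 h1).1]
    have hzn : ‖z‖ ≤ t + 3 := by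
      have h1 : z = (z - c) + c := by ring
      have h2 : ‖c‖ ≤ t + 7 / 4 := by
        refine (Complex.norm_le_abs_re_add_abs_im _).trans ?_
        rw [hcre, hcim, abs_of_nonneg (by linarith : 0 ≤ t), abs_of_nonneg (by linarith)]
        linarith
      rw [h1]
      refine (norm_add_le _ _).trans ?_
      linarith
    have hF : ‖riemannZeta₁ z‖ ≤ K * (2 * t) ^ 5 := by
      have h3 : z + 3 ≠ 0 := by
        intro h
        have := congrArg Complex.re h
        rw [add_re, zero_re] at this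
        have h4 : (3:ℂ).re = 3 := rfl
        rw [h4] at this
        linarith
      have h4 : riemannZeta₁ z = LS.GG z * (z + 3) := by
        unfold LS.GG
        rw [div_mul_cancel₀ _ h3]
      have h5 : ‖z + 3‖ ≤ 2 * t := by
        refine (norm_add_le _ _).trans ?_
        have : ‖(3:ℂ)‖ = 3 := by simp
        rw [this]; linarith
      rw [h4, norm_mul]
      calc ‖LS.GG z‖ * ‖z + 3‖ ≤ K * (‖z‖ + 1) ^ 4 * (2 * t) := by
            gcongr
            exact hg z hzre
        _ ≤ K * (2 * t) ^ 4 * (2 * t) := by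
            gcongr
            linarith
        _ = K * (2 * t) ^ 5 := by ring
    have he : Real.exp (5 * Real.log t) = t ^ 5 := by
      rw [show (5 : ℝ) * Real.log t = (5 : ℕ) * Real.log t by norm_num, Real.exp_nat_mul,
        Real.exp_log (by linarith)]
    rw [he]
    calc ‖riemannZeta₁ z‖ ≤ K * (2 * t) ^ 5 := hF
      _ = t ^ 5 * ((32 * A * K) / A) := by field_simp; ring
      _ ≤ t ^ 5 * (t / A) := by gcongr
      _ ≤ t ^ 5 * ‖riemannZeta₁ c‖ := by gcongr
  · intro z hz
    rw [mem_closedBall, dist_eq_norm] at hz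
    refine hld z ?_ ?_
    · have h1 := (Complex.abs_re_le_norm (z - c)).trans hz
      rw [sub_re, hcre] at h1
      linarith [(abs_le.1 h1).1]
    · have h1 := (Complex.abs_im_le_norm (z - c)).trans hz
      rw [sub_im, hcim] at h1
      have h2 := Complex.abs_im_le_norm (z - 1)
      rw [sub_im, one_im, sub_zero] at h2
      have h3 := le_abs_self z.im
      linarith [(abs_le.1 h1).1]

/-- zeros of `ζ` and of `(s - 1) ζ(s)` have the same order -/
lemma order_eq {ρ : ℂ} (hρ : ρ ≠ 1) :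
    analyticOrderNatAt riemannZeta₁ ρ = analyticOrderNatAt riemannZeta ρ := by
  have h2 : riemannZeta₁ =ᶠ[𝓝 ρ] fun w => (w - 1) * riemannZeta w := by
    filter_upwards [isOpen_ne.mem_nhds hρ] with w hw using z1_eq_mul hw
  have ha : AnalyticAt ℂ riemannZeta ρ := by
    have hd : DifferentiableOn ℂ riemannZeta {1}ᶜ := fun w hw =>
      (differentiableAt_riemannZeta hw).differentiableWithinAt
    exact hd.analyticAt (isOpen_compl_singleton.mem_nhds hρ)
  have hb : AnalyticAt ℂ (fun w : ℂ => w - 1) ρ := by fun_prop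
  have h3 : analyticOrderAt riemannZeta₁ ρ = analyticOrderAt riemannZeta ρ := by
    rw [analyticOrderAt_congr h2]
    have h4 : (fun w : ℂ => (w - 1) * riemannZeta w) = (fun w : ℂ => w - 1) * riemannZeta := rfl
    rw [h4, analyticOrderAt_mul hb ha]
    have h5 : analyticOrderAt (fun w : ℂ => w - 1) ρ = 0 := by
      rw [hb.analyticOrderAt_eq_zero]
      exact sub_ne_zero.2 hρ
    rw [h5, zero_add]
  rw [analyticOrderNatAt, analyticOrderNatAt, h3]

lemma zero_iff {ρ : ℂ} (hρ : ρ ≠ 1) : riemannZeta₁ ρ = 0 ↔ riemannZeta ρ = 0 := by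
  rw [z1_eq_mul hρ, mul_eq_zero, sub_eq_zero]
  constructor
  · rintro (h | h)
    · exact absurd h hρ
    · exact h
  · exact Or.inr

lemma Zs_zeta {a t : ℝ} (ht : 10 ≤ t) : Zs riemannZeta₁ a t = Zs riemannZeta a t := by
  unfold Zs
  have hset : zset riemannZeta₁ a t = zset riemannZeta a t := by
    ext ρ
    unfold zset
    simp only [mem_setOf_eq]
    constructor
    · rintro ⟨h1, h2, h3⟩
      have hρ : ρ ≠ 1 := by
        rintro rfl
        rw [one_im, zero_sub, abs_neg, abs_of_nonneg (by linarith)] at h3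
        linarith
      exact ⟨(zero_iff hρ).1 h1, h2, h3⟩
    · rintro ⟨h1, h2, h3⟩
      have hρ : ρ ≠ 1 := by
        rintro rfl
        rw [one_im, zero_sub, abs_neg, abs_of_nonneg (by linarith)] at h3
        linarith
      exact ⟨(zero_iff hρ).2 h1, h2, h3⟩
  rw [hset]
  refine finsum_mem_congr rfl fun ρ hρ => ?_
  have hρ1 : ρ ≠ 1 := by
    rintro rfl
    have h3 := hρ.2.2
    rw [one_im, zero_sub, abs_neg, abs_of_nonneg (by linarith)] at h3
    linarith
  rw [order_eq hρ1]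

lemma nset_ne_one {F : ℂ → ℂ} {a t r : ℝ} (ht : 10 ≤ t) (hr : r ≤ 1 / 8) {ρ : ℂ}
    (hρ : ρ ∈ nset F a t r) : ρ ≠ 1 := by
  rintro rfl
  have h1 := hρ.2
  have h2 := Complex.abs_im_le_norm (1 - ((a : ℂ) + t * I))
  have h3 : (1 - ((a : ℂ) + t * I)).im = -t := by simp
  rw [h3, abs_neg, abs_of_nonneg (by linarith)] at h2
  linarith

lemma Ns_zeta {a t r : ℝ} (ht : 10 ≤ t) (hr : r ≤ 1 / 8) :
    Ns riemannZeta₁ a t r = Ns riemannZeta a t r := by
  unfold Ns
  have hset : nset riemannZeta₁ a t r = nset riemannZeta a t r := by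
    ext ρ
    constructor
    · intro h
      exact ⟨(zero_iff (nset_ne_one ht hr h)).1 h.1, h.2⟩
    · intro h
      exact ⟨(zero_iff (nset_ne_one ht hr h)).2 h.1, h.2⟩
  rw [hset]
  refine finsum_mem_congr rfl fun ρ hρ => ?_
  rw [order_eq (nset_ne_one ht hr hρ)]

end

end Pool.Agent.Y757.LL
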