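import Pool.Agent.H437R2.A2

/-!
# Landau's lemma with the zero-free part
-/

set_option autoImplicit false

open MeasureTheory Filter Topology Set Metric Pool.Agent.H437R2

namespace Pool.Agent.Y757.LL

theorem landau2 (F : ℂ → ℂ) (hF : Differentiable ℂ F) (c : ℂ) {r R1 R2 M : ℝ} (hr : 0 < r)
    (hr1 : r < R1) (hR : R1 < R2) (hFc : F c ≠ 0) (hM : ∀ z ∈ closedBall c R2, ‖F z‖ ≤ M) :
    ∃ (L : List ℂ) (G : ℂ → ℂ), (∀ ρ ∈ L, F ρ = 0 ∧ ρ ∈ closedBall c R1) ∧
      (∀ ρ ∈ closedBall c R1, F ρ = 0 → ρ ∈ L) ∧ Differentiable ℂ G ∧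
      (∀ z ∈ closedBall c R1, G z ≠ 0) ∧ (∀ v, F v = (L.map (fun r => v - r)).prod * G v) ∧
      (L.length : ℝ) * Real.log (R2 / R1) ≤ Real.log (M / ‖F c‖) ∧
      ∀ z ∈ closedBall c r, ‖deriv G z / G z‖ ≤
          8 * R1 / (R1 - r) ^ 2 *
            (Real.log (M / ‖F c‖) + L.length * |Real.log (R1 / (R2 - R1))| + 1) := by
  have hR1 : 0 < R1 := hr.trans hr1
  have hR2 : 0 < R2 := hR1.trans hR
  have hR21 : 0 < R2 - R1 := sub_pos.2 hR
  have hFc0 : 0 < ‖F c‖ := norm_pos_iff.2 hFc
  have hMc : ‖F c‖ ≤ M := hM c (mem_closedBall_self hR2.le)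
  have hM0 : 0 < M := hFc0.trans_le hMc
  obtain ⟨L, G, hL1, hL2, hG, hGK, hFG⟩ :=
    entire_factor F hF ⟨c, hFc⟩ (closedBall c R1) (isCompact_closedBall c R1)
  set n := L.length with hn
  have hGc : G c ≠ 0 := hGK c (mem_closedBall_self hR1.le)
  have hGc0 : 0 < ‖G c‖ := norm_pos_iff.2 hGc
  have hprodnorm : ∀ v : ℂ, ‖F v‖ = (L.map (fun ρ => ‖v - ρ‖)).prod * ‖G v‖ := by
    intro v
    rw [hFG v, norm_mul, norm_list_prod, List.map_map]
    rfl
  have hFcle : ‖F c‖ ≤ R1 ^ n * ‖G c‖ := by
    rw [hprodnorm c]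
    refine mul_le_mul_of_nonneg_right (list_prod_le_pow L _ R1 (fun _ _ => norm_nonneg _) ?_).1
      (norm_nonneg _)
    intro ρ hρ
    have := (hL1 ρ hρ).2
    rw [mem_closedBall, dist_eq_norm] at this
    rwa [norm_sub_rev]
  -- Step 1: counting
  have hcount : R2 ^ n * ‖G c‖ ≤ M := by
    set B : ℂ → ℂ := fun v =>
      (L.map (fun ρ => ((R2:ℂ) ^ 2 - (starRingEnd ℂ) (ρ - c) * (v - c)) / R2)).prod * G v with hB
    have hBd : Differentiable ℂ B := by
      have : ∀ L' : List ℂ, Differentiable ℂ (fun v : ℂ =>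
          (L'.map (fun ρ => ((R2:ℂ) ^ 2 - (starRingEnd ℂ) (ρ - c) * (v - c)) / R2)).prod) := by
        intro L'
        induction L' with
        | nil => simp
        | cons a L' ih =>
          simp only [List.map_cons, List.prod_cons]
          refine Differentiable.mul ?_ ih
          fun_prop
      exact (this L).mul hG
    have hBc : ‖B c‖ = R2 ^ n * ‖G c‖ := by
      simp only [hB, sub_self, mul_zero, sub_zero, norm_mul]
      congr 1
      have hR2c : (R2:ℂ) ≠ 0 := by exact_mod_cast hR2.ne'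
      have h2 : (R2:ℂ) ^ 2 / R2 = R2 := by field_simp
      rw [h2, List.map_const', List.prod_replicate, norm_pow, Complex.norm_real,
        Real.norm_of_nonneg hR2.le]
    have hBs : ∀ z ∈ frontier (ball c R2), ‖B z‖ ≤ M := by
      intro z hz
      rw [frontier_ball c hR2.ne', mem_sphere, dist_eq_norm] at hz
      have h1 : ‖B z‖ = ‖F z‖ := by
        rw [hprodnorm z]
        simp only [hB, norm_mul]
        rw [norm_list_prod, List.map_map]
        congr 2
        refine List.map_congr_left fun ρ _ => ?_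
        show ‖((R2:ℂ) ^ 2 - (starRingEnd ℂ) (ρ - c) * (z - c)) / R2‖ = ‖z - ρ‖
        have h3 : (R2:ℂ) ^ 2 = (starRingEnd ℂ) (z - c) * (z - c) := by
          rw [mul_comm, Complex.mul_conj, Complex.normSq_eq_norm_sq, hz]
          push_cast
          ring
        rw [h3, ← sub_mul, ← map_sub, norm_div, norm_mul, hz, Complex.norm_real,
          Real.norm_of_nonneg hR2.le, mul_div_cancel_right₀ _ hR2.ne', RCLike.norm_conj]
        congr 1
        ring
      rw [h1]
      refine hM z ?_
      rw [mem_closedBall, dist_eq_norm]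
      exact hz.le
    have := Complex.norm_le_of_forall_mem_frontier_norm_le isBounded_ball
      (hBd.diffContOnCl (s := ball c R2)) hBs (subset_closure (mem_ball_self hR2))
    rwa [hBc] at this
  -- Step 2: sup of G
  have hGsup : ∀ z ∈ closedBall c R2, ‖G z‖ ≤ M / (R2 - R1) ^ n := by
    intro z hz
    have hs : ∀ z ∈ frontier (ball c R2), ‖G z‖ ≤ M / (R2 - R1) ^ n := by
      intro z hz
      rw [frontier_ball c hR2.ne', mem_sphere, dist_eq_norm] at hz
      rw [le_div_iff₀ (pow_pos hR21 n)]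
      have h1 : (R2 - R1) ^ n ≤ (L.map (fun ρ => ‖z - ρ‖)).prod := by
        refine pow_le_list_prod L _ _ hR21.le ?_
        intro ρ hρ
        have h2 := (hL1 ρ hρ).2
        rw [mem_closedBall, dist_eq_norm] at h2
        have h3 : ‖z - c‖ ≤ ‖z - ρ‖ + ‖ρ - c‖ := by
          have := norm_add_le (z - ρ) (ρ - c)
          rwa [sub_add_sub_cancel] at this
        linarith
      calc ‖G z‖ * (R2 - R1) ^ n ≤ ‖G z‖ * (L.map (fun ρ => ‖z - ρ‖)).prod := by gcongr
        _ = ‖F z‖ := by rw [hprodnorm z, mul_comm]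
        _ ≤ M := hM z (by rw [mem_closedBall, dist_eq_norm]; exact hz.le)
    refine Complex.norm_le_of_forall_mem_frontier_norm_le isBounded_ball
      (hG.diffContOnCl (s := ball c R2)) hs ?_
    rwa [closure_ball c hR2.ne']
  -- Step 3: logarithm of G
  have hqd : DifferentiableOn ℂ (fun z => deriv G z / G z) (ball c R1) := by
    intro z hz
    have hGz := hGK z (ball_subset_closedBall hz)
    have h1 : DifferentiableAt ℂ (deriv G) z := (hG.analyticAt z).deriv.differentiableAt
    exact (h1.div (hG z) hGz).differentiableWithinAt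
  obtain ⟨h, hc0, hh⟩ := hqd.isExactOn_ball.with_val_at c 0
  have hexp : ∀ z ∈ ball c R1, G z = G c * Complex.exp (h z) := by
    have hconst : ∀ z ∈ ball c R1, G z * Complex.exp (-h z) = G c * Complex.exp (-h c) := by
      intro z hz
      have hd : ∀ w ∈ ball c R1, HasDerivAt (fun w => G w * Complex.exp (-h w)) 0 w := by
        intro w hw
        have h1 : HasDerivAt (fun w => G w * Complex.exp (-h w))
            (deriv G w * Complex.exp (-h w) + G w * (Complex.exp (-h w) * -(deriv G w / G w))) w :=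
          (hG w).hasDerivAt.mul (hh w hw).neg.cexp
        have hGw := hGK w (ball_subset_closedBall hw)
        have h2 : deriv G w * Complex.exp (-h w) + G w * (Complex.exp (-h w) * -(deriv G w / G w)) = 0 := by
          field_simp
          ring
        rw [h2] at h1
        exact h1
      exact isOpen_ball.is_const_of_deriv_eq_zero (isConnected_ball hR1).isPreconnected
        (fun w hw => (hd w hw).differentiableAt.differentiableWithinAt)
        (fun w hw => (hd w hw).deriv) hz (mem_ball_self hR1)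
    intro z hz
    have h1 := hconst z hz
    rw [hc0, neg_zero, Complex.exp_zero, mul_one] at h1
    rw [← h1, mul_assoc, ← Complex.exp_add]
    simp
  set Λ : ℝ := Real.log (M / ‖F c‖) + n * |Real.log (R1 / (R2 - R1))| + 1 with hΛ
  have hlog0 : 0 ≤ Real.log (M / ‖F c‖) := Real.log_nonneg ((one_le_div hFc0).2 hMc)
  have hΛ0 : 0 < Λ := by positivity
  have hre : ∀ z ∈ ball c R1, (h z).re ≤ Λ := by
    intro z hz
    have h1 : Real.exp ((h z).re) = ‖G z‖ / ‖G c‖ := by
      rw [hexp z hz, norm_mul, Complex.norm_exp, mul_div_cancel_left₀ _ hGc0.ne']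
    have h2 : ‖G z‖ ≤ M / (R2 - R1) ^ n :=
      hGsup z (closedBall_subset_closedBall hR.le (ball_subset_closedBall hz))
    have h3 : ‖G z‖ / ‖G c‖ ≤ M / ‖F c‖ * (R1 / (R2 - R1)) ^ n := by
      rw [div_le_iff₀ hGc0, div_pow]
      calc ‖G z‖ ≤ M / (R2 - R1) ^ n := h2
        _ = M / ‖F c‖ * (1 / (R2 - R1) ^ n) * ‖F c‖ := by field_simp
        _ ≤ M / ‖F c‖ * (1 / (R2 - R1) ^ n) * (R1 ^ n * ‖G c‖) := by gcongr
        _ = M / ‖F c‖ * (R1 ^ n / (R2 - R1) ^ n) * ‖G c‖ := by ring
    have h4 : Real.exp ((h z).re) ≤ Real.exp (Real.log (M / ‖F c‖) + n * Real.log (R1 / (R2 - R1))) := by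
      rw [h1, Real.exp_add, Real.exp_log (by positivity), Real.exp_nat_mul,
        Real.exp_log (by positivity)]
      exact h3
    have h5 := Real.exp_le_exp.1 h4
    have h6 : (n:ℝ) * Real.log (R1 / (R2 - R1)) ≤ n * |Real.log (R1 / (R2 - R1))| := by
      gcongr
      exact le_abs_self _
    linarith
  -- Step 4: Borel-Caratheodory
  set r' : ℝ := (r + R1) / 2 with hr'
  have hr'1 : r < r' := by rw [hr']; linarith
  have hr'2 : r' < R1 := by rw [hr']; linarith
  have hbc : ∀ z ∈ closedBall c r', ‖h z‖ ≤ 2 * Λ * r' / (R1 - r') := by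
    intro z hz
    rw [mem_closedBall, dist_eq_norm] at hz
    have h1 : DifferentiableOn ℂ (fun w => h (c + w)) (ball 0 R1) := by
      intro w hw
      have hcw : c + w ∈ ball c R1 := by
        rw [mem_ball, dist_eq_norm, add_sub_cancel_left]
        simpa using hw
      have := (hh (c + w) hcw).differentiableAt
      exact (this.comp w (by fun_prop : DifferentiableAt ℂ (fun w => c + w) w)).differentiableWithinAt
    have h2 : MapsTo (fun w => h (c + w)) (ball 0 R1) {z | z.re ≤ Λ} := by
      intro w hw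
      have hcw : c + w ∈ ball c R1 := by
        rw [mem_ball, dist_eq_norm, add_sub_cancel_left]
        simpa using hw
      exact hre _ hcw
    have h3 : z - c ∈ ball (0:ℂ) R1 := by
      rw [mem_ball, dist_zero_right]
      linarith
    have h4 := Complex.borelCaratheodory_zero hΛ0 h1 h2 hR1 h3 (by simp [hc0])
    simp only [add_sub_cancel] at h4
    refine h4.trans ?_
    have h5 : 0 < R1 - ‖z - c‖ := by linarith
    have h6 : 0 < R1 - r' := by linarith
    gcongr
  refine ⟨L, G, hL1, hL2, hG, hGK, hFG, ?_, ?_⟩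
  · have h1 : (R2 / R1) ^ n ≤ M / ‖F c‖ := by
      rw [le_div_iff₀ hFc0, div_pow]
      calc R2 ^ n / R1 ^ n * ‖F c‖ ≤ R2 ^ n / R1 ^ n * (R1 ^ n * ‖G c‖) := by gcongr
        _ = R2 ^ n * ‖G c‖ := by field_simp
        _ ≤ M := hcount
    have h2 := Real.log_le_log (by positivity) h1
    rwa [Real.log_pow] at h2
  · intro z hz
    rw [mem_closedBall, dist_eq_norm] at hz
    have hzb : z ∈ ball c R1 := by
      rw [mem_ball, dist_eq_norm]; linarith
    rw [← (hh z hzb).deriv]
    have hδ : 0 < (R1 - r) / 2 := by linarith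
    have h1 : DiffContOnCl ℂ h (ball z ((R1 - r) / 2)) := by
      refine DifferentiableOn.diffContOnCl ?_
      rw [closure_ball _ hδ.ne']
      intro w hw
      rw [mem_closedBall, dist_eq_norm] at hw
      have : w ∈ ball c R1 := by
        rw [mem_ball, dist_eq_norm]
        have := norm_add_le (w - z) (z - c)
        rw [sub_add_sub_cancel] at this
        linarith
      exact (hh w this).differentiableAt.differentiableWithinAt
    have h2 : ∀ w ∈ sphere z ((R1 - r) / 2), ‖h w‖ ≤ 2 * Λ * r' / (R1 - r') := by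
      intro w hw
      rw [mem_sphere, dist_eq_norm] at hw
      refine hbc w ?_
      rw [mem_closedBall, dist_eq_norm]
      have := norm_add_le (w - z) (z - c)
      rw [sub_add_sub_cancel] at this
      rw [hr']
      linarith
    refine (Complex.norm_deriv_le_of_forall_mem_sphere_norm_le hδ h1 h2).trans ?_
    have e : R1 - r' = (R1 - r) / 2 := by rw [hr']; ring
    rw [e]
    have hpos : 0 < R1 - r := by linarith
    have e2 : 2 * Λ * r' / ((R1 - r) / 2) / ((R1 - r) / 2) = 8 * r' / (R1 - r) ^ 2 * Λ := by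
      field_simp
      ring
    rw [e2]
    gcongr


end Pool.Agent.Y757.LL
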