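import Pool.Agent.Y757.LL.Schw
import Pool.Agent.Y757.LL.Landau

/-!
# The local bound for an entire function in terms of its zeros right of a line
-/

set_option autoImplicit false

open Complex Filter Topology Set Metric Pool.Agent.H437R2

namespace Pool.Agent.Y757.LL

noncomputable section

/-- reflection in the line `Re s = a` of the points right of it -/
def refl (a : ℝ) (ρ : ℂ) : ℂ := if ρ.re ≤ a then ρ else (2 * a : ℝ) - (starRingEnd ℂ) ρ

/-- `(Re ρ - a)^+` -/
def exc (a : ℝ) (ρ : ℂ) : ℝ := max (ρ.re - a) 0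

lemma exc_nonneg (a : ℝ) (ρ : ℂ) : 0 ≤ exc a ρ := le_max_right _ _

lemma refl_re (a : ℝ) (ρ : ℂ) : (refl a ρ).re ≤ a := by
  unfold refl
  split_ifs with h
  · exact h
  · push Not at h
    simp only [sub_re, ofReal_re, conj_re]
    linarith

lemma refl_im (a : ℝ) (ρ : ℂ) : (refl a ρ).im = ρ.im := by
  unfold refl
  split_ifs with h
  · rfl
  · simp [sub_im, ofReal_im, conj_im]

lemma refl_re_eq (a : ℝ) (ρ : ℂ) : (refl a ρ).re = ρ.re - 2 * exc a ρ := by
  unfold refl exc
  split_ifs with h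
  · rw [max_eq_right (by linarith)]; ring
  · push Not at h
    rw [max_eq_left (by linarith)]
    simp only [sub_re, ofReal_re, conj_re]
    ring

lemma sub_refl (a : ℝ) (ρ : ℂ) : ρ - refl a ρ = ((2 * exc a ρ : ℝ) : ℂ) := by
  apply Complex.ext
  · rw [sub_re, refl_re_eq, ofReal_re]; ring
  · rw [sub_im, refl_im, ofReal_im]; ring

lemma norm_sub_refl (a : ℝ) (ρ : ℂ) : ‖ρ - refl a ρ‖ = 2 * exc a ρ := by
  rw [sub_refl, norm_real, Real.norm_of_nonneg (by have := exc_nonneg a ρ; linarith)]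

lemma le_refl' {a : ℝ} {s : ℂ} (hs : a ≤ s.re) (ρ : ℂ) : ‖s - ρ‖ ≤ ‖s - refl a ρ‖ := by
  rw [← sq_le_sq₀ (norm_nonneg _) (norm_nonneg _), ← Complex.normSq_eq_norm_sq,
    ← Complex.normSq_eq_norm_sq, Complex.normSq_apply, Complex.normSq_apply]
  simp only [sub_re, sub_im, refl_im, refl_re_eq]
  have h1 := exc_nonneg a ρ
  have h2 : ρ.re - a ≤ exc a ρ := le_max_left _ _
  have h3 : exc a ρ * (ρ.re - a - exc a ρ) = 0 := by
    unfold exc
    rcases le_total (ρ.re - a) 0 with h | h
    · rw [max_eq_right h]; ring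
    · rw [max_eq_left h]; ring
  nlinarith [mul_nonneg h1 (sub_nonneg.2 hs)]

lemma eq_refl' {a : ℝ} {s : ℂ} (hs : s.re = a) (ρ : ℂ) : ‖s - refl a ρ‖ = ‖s - ρ‖ := by
  refine le_antisymm ?_ (le_refl' hs.ge ρ)
  rw [← sq_le_sq₀ (norm_nonneg _) (norm_nonneg _), ← Complex.normSq_eq_norm_sq,
    ← Complex.normSq_eq_norm_sq, Complex.normSq_apply, Complex.normSq_apply]
  simp only [sub_re, sub_im, refl_im, refl_re_eq]
  have h3 : exc a ρ * (ρ.re - a - exc a ρ) = 0 := by
    unfold exc
    rcases le_total (ρ.re - a) 0 with h | h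
    · rw [max_eq_right h]; ring
    · rw [max_eq_left h]; ring
  rw [hs]
  nlinarith

lemma list_norm_sum (L : List ℂ) (f : ℂ → ℂ) (g : ℂ → ℝ) (h : ∀ r ∈ L, ‖f r‖ ≤ g r) :
    ‖(L.map f).sum‖ ≤ (L.map g).sum := by
  induction L with
  | nil => simp
  | cons a L ih =>
    simp only [List.map_cons, List.sum_cons]
    refine (norm_add_le _ _).trans (add_le_add (h a List.mem_cons_self) (ih fun r hr => ?_))
    exact h r (List.mem_cons_of_mem _ hr)

lemma list_re_sum (L : List ℂ) (f : ℂ → ℂ) (g : ℂ → ℝ) (h : ∀ r ∈ L, g r ≤ (f r).re) :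
    (L.map g).sum ≤ ((L.map f).sum).re := by
  induction L with
  | nil => simp
  | cons a L ih =>
    simp only [List.map_cons, List.sum_cons, add_re]
    exact add_le_add (h a List.mem_cons_self) (ih fun r hr => h r (List.mem_cons_of_mem _ hr))

lemma list_sum_mul (L : List ℂ) (f : ℂ → ℝ) (k : ℝ) :
    (L.map (fun r => k * f r)).sum = k * (L.map f).sum := by
  induction L with
  | nil => simp
  | cons a L ih => simp only [List.map_cons, List.sum_cons, ih]; ring

lemma list_sum_nonneg (L : List ℂ) (f : ℂ → ℝ) (h : ∀ r ∈ L, 0 ≤ f r) : 0 ≤ (L.map f).sum := by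
  apply List.sum_nonneg
  intro x hx
  obtain ⟨r, hr, rfl⟩ := List.mem_map.1 hx
  exact h r hr

/-- the total excess -/
def ZZ (a : ℝ) (L : List ℂ) : ℝ := (L.map (exc a)).sum

lemma ZZ_nonneg (a : ℝ) (L : List ℂ) : 0 ≤ ZZ a L := list_sum_nonneg L _ fun r _ => exc_nonneg a r

/-- `F` with the zeros right of the line reflected -/
def HH (a : ℝ) (L : List ℂ) (G : ℂ → ℂ) (s : ℂ) : ℂ :=
  ((L.map (refl a)).map (fun r => s - r)).prod * G s

lemma HH_diff (a : ℝ) (L : List ℂ) {G : ℂ → ℂ} (hG : Differentiable ℂ G) :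
    Differentiable ℂ (HH a L G) := by
  have : ∀ L' : List ℂ, Differentiable ℂ (fun v : ℂ => (L'.map (fun r => v - r)).prod) := by
    intro L'
    induction L' with
    | nil => simp
    | cons a L' ih =>
      simp only [List.map_cons, List.prod_cons]
      exact Differentiable.mul (by fun_prop) ih
  exact (this _).mul hG

lemma HH_norm (a : ℝ) (L : List ℂ) (G : ℂ → ℂ) (s : ℂ) :
    ‖HH a L G s‖ = (L.map (fun r => ‖s - refl a r‖)).prod * ‖G s‖ := by
  unfold HH
  rw [norm_mul, norm_list_prod, List.map_map, List.map_map]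
  rfl

lemma list_prod_mono (L : List ℂ) (f g : ℂ → ℝ) (h0 : ∀ r ∈ L, 0 ≤ f r)
    (h : ∀ r ∈ L, f r ≤ g r) : (L.map f).prod ≤ (L.map g).prod ∧ 0 ≤ (L.map f).prod := by
  induction L with
  | nil => simp
  | cons a L ih =>
    obtain ⟨h1, h2⟩ := ih (fun r hr => h0 r (List.mem_cons_of_mem _ hr))
      (fun r hr => h r (List.mem_cons_of_mem _ hr))
    have h3 := h a List.mem_cons_self
    have h4 := h0 a List.mem_cons_self
    simp only [List.map_cons, List.prod_cons]
    exact ⟨mul_le_mul h3 h1 h2 (h4.trans h3), mul_nonneg h4 h2⟩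

lemma pow12 (M : ℕ) : (M : ℝ) * Real.exp (M / 2) ≤ 12 ^ M := by
  have h1 : (M : ℝ) ≤ 2 ^ M := by exact_mod_cast (Nat.lt_two_pow_self (n := M)).le
  have h2 : Real.exp ((M : ℝ) / 2) ≤ 2 ^ M := by
    have h3 : Real.exp ((M : ℝ) / 2) = (Real.exp (1 / 2)) ^ M := by
      rw [← Real.exp_nat_mul]; congr 1; ring
    rw [h3]
    refine pow_le_pow_left₀ (Real.exp_pos _).le ?_ M
    have h4 : Real.exp (1 / 2) ^ 2 = Real.exp 1 := by
      rw [← Real.exp_nat_mul]; congr 1; norm_num
    have h5 := Real.exp_one_lt_d9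
    nlinarith [Real.exp_pos (1 / 2)]
  calc (M : ℝ) * Real.exp (M / 2) ≤ 2 ^ M * 2 ^ M := by gcongr
    _ = 4 ^ M := by rw [← mul_pow]; norm_num
    _ ≤ 12 ^ M := pow_le_pow_left₀ (by norm_num) (by norm_num) M

lemma eta_le {f : ℂ → ℂ} {Y : ℝ} (hf : DifferentiableOn ℂ f (ball 0 (3 / 4))) (hY0 : 0 ≤ Y)
    (hY : ∀ z : ℂ, ‖z‖ ≤ 1 / 8 → ‖f z‖ ≤ Y) (M : ℕ) : eta f (3 / 4) M ≤ Y * 12 ^ M := by
  unfold eta
  have h1 : ∀ n ∈ Finset.Ico 1 M, ‖E f n 0‖ * (3 / 4 : ℝ) ^ n ≤ Y * 12 ^ n := by
    intro n _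
    have h2 := E_bound (R := 3 / 4) (ρ := 1 / 8) (by norm_num) (by norm_num) hf hY n 0 (by simp)
    calc ‖E f n 0‖ * (3 / 4 : ℝ) ^ n ≤ (2 / (1 / 8)) ^ n * Y * (3 / 4) ^ n := by gcongr
      _ = Y * 12 ^ n := by
        rw [mul_comm ((2 / (1 / 8) : ℝ) ^ n) Y, mul_assoc, ← mul_pow]
        norm_num
  refine (Finset.sum_le_sum h1).trans ?_
  rw [← Finset.mul_sum]
  refine mul_le_mul_of_nonneg_left ?_ hY0
  have h3 : ∑ n ∈ Finset.Ico 1 M, (12:ℝ) ^ n ≤ ∑ n ∈ Finset.range M, (12:ℝ) ^ n := by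
    refine Finset.sum_le_sum_of_subset_of_nonneg ?_ fun _ _ _ => by positivity
    intro n hn
    rw [Finset.mem_Ico] at hn
    exact Finset.mem_range.2 hn.2
  refine h3.trans ?_
  rw [geom_sum_eq (by norm_num)]
  have : (0:ℝ) < 12 ^ M := by positivity
  rw [div_le_iff₀ (by norm_num)]
  linarith

/-- logarithmic derivative data -/
lemma HH_data {F : ℂ → ℂ} {c : ℂ} {B C1 a : ℝ} (ha : a = c.re - 3 / 4)
    (hz : ∀ ρ, F ρ = 0 → ρ.re ≤ c.re - 1 / 4)
    (h1 : ∀ z ∈ closedBall c (1 / 8), ‖deriv F z / F z‖ ≤ C1)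
    {L : List ℂ} {G : ℂ → ℂ} (hL : ∀ ρ ∈ L, F ρ = 0 ∧ ρ ∈ closedBall c (7 / 8))
    (hG : Differentiable ℂ G) (hGK : ∀ z ∈ closedBall c (7 / 8), G z ≠ 0)
    (hFG : ∀ v, F v = (L.map (fun r => v - r)).prod * G v)
    (hGd : ∀ z ∈ closedBall c (3 / 4), ‖deriv G z / G z‖ ≤ 8064 * B) :
    (∀ z ∈ ball c (3 / 4), HH a L G z ≠ 0) ∧
    (∀ z ∈ ball c (3 / 4), ((L.map (fun r => (z - refl a r)⁻¹)).sum).re - 8064 * B ≤
      (deriv (HH a L G) z / HH a L G z).re) ∧
    (∀ z ∈ ball c (3 / 4), -(8064 * B) ≤ (deriv (HH a L G) z / HH a L G z).re) ∧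
    (∀ z ∈ closedBall c (1 / 8), ‖deriv (HH a L G) z / HH a L G z‖ ≤ C1 + 26 * ZZ a L) ∧
    (∀ s : ℂ, a ≤ s.re → ‖F s‖ ≤ ‖HH a L G s‖) ∧
    ‖HH a L G c‖ ≤ ‖F c‖ * Real.exp (8 * ZZ a L) := by
  have hre : ∀ z ∈ ball c (3 / 4), a < z.re := by
    intro z hz
    rw [mem_ball, dist_eq_norm] at hz
    have h2 := Complex.abs_re_le_norm (z - c)
    rw [sub_re] at h2
    have := (abs_le.1 (h2.trans hz.le)).1
    have h3 : |z.re - c.re| < 3 / 4 := h2.trans_lt hz
    have := (abs_lt.1 h3).1
    rw [ha]; linarith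
  have hprod : ∀ s, ‖F s‖ = (L.map (fun r => ‖s - r‖)).prod * ‖G s‖ := by
    intro s
    rw [hFG, norm_mul, norm_list_prod, List.map_map]
    rfl
  have hne : ∀ z ∈ ball c (3 / 4), HH a L G z ≠ 0 := by
    intro z hz
    have hz' := hre z hz
    have hGz : G z ≠ 0 := hGK z (by
      rw [mem_ball] at hz; rw [mem_closedBall]; linarith)
    unfold HH
    refine mul_ne_zero ?_ hGz
    rw [Ne, List.prod_eq_zero_iff, List.map_map]
    intro h0
    obtain ⟨r, _, hr⟩ := List.mem_map.1 h0
    simp only [Function.comp] at hr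
    have h2 := congrArg Complex.re hr
    rw [sub_re, zero_re] at h2
    have := refl_re a r
    linarith
  have hld : ∀ z ∈ ball c (3 / 4), deriv (HH a L G) z / HH a L G z =
      (L.map (fun r => (z - refl a r)⁻¹)).sum + deriv G z / G z := by
    intro z hz
    have h2 := logDeriv_factor (L.map (refl a)) (HH a L G) G hG (fun v => rfl) (hne z hz)
    rw [h2, List.map_map]
    rfl
  have hpos : ∀ z ∈ ball c (3 / 4), ∀ r, 0 ≤ ((z - refl a r)⁻¹).re := by
    intro z hz r
    rw [inv_re]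
    refine div_nonneg ?_ (normSq_nonneg _)
    rw [sub_re]
    have := refl_re a r
    have := hre z hz
    linarith
  have h26 : ∀ z ∈ ball c (3 / 4), ((L.map (fun r => (z - refl a r)⁻¹)).sum).re - 8064 * B ≤
      (deriv (HH a L G) z / HH a L G z).re := by
    intro z hz
    rw [hld z hz, add_re]
    have h2 := hGd z (ball_subset_closedBall hz)
    have h3 := (abs_le.1 ((Complex.abs_re_le_norm (deriv G z / G z)).trans h2)).1
    linarith
  refine ⟨hne, h26, ?_, ?_, ?_, ?_⟩
  · intro z hz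
    have h2 := h26 z hz
    have h3 := list_re_sum L (fun r => (z - refl a r)⁻¹) (fun _ => 0) (fun r _ => hpos z hz r)
    have h4 : (L.map (fun _ : ℂ => (0:ℝ))).sum = 0 := by simp
    rw [h4] at h3
    linarith
  · intro z hz8
    have hzb : z ∈ ball c (3 / 4) := by
      rw [mem_closedBall] at hz8; rw [mem_ball]; linarith
    have hFz : F z ≠ 0 := by
      intro h0
      have h2 := hz z h0
      rw [mem_closedBall, dist_eq_norm] at hz8
      have h3 := Complex.abs_re_le_norm (z - c)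
      rw [sub_re] at h3
      have := (abs_le.1 (h3.trans hz8)).1
      linarith
    have h2 : deriv (HH a L G) z / HH a L G z = deriv F z / F z +
        (L.map (fun r => (z - refl a r)⁻¹ - (z - r)⁻¹)).sum := by
      rw [hld z hzb, logDeriv_factor L F G hG hFG hFz]
      have : ∀ L' : List ℂ, (L'.map (fun r => (z - refl a r)⁻¹ - (z - r)⁻¹)).sum =
          (L'.map (fun r => (z - refl a r)⁻¹)).sum - (L'.map (fun r => (z - r)⁻¹)).sum := by
        intro L'
        induction L' with
        | nil => simp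
        | cons b L' ih => simp only [List.map_cons, List.sum_cons, ih]; ring
      rw [this]; ring
    rw [h2]
    refine (norm_add_le _ _).trans (add_le_add (h1 z hz8) ?_)
    have h3 : ∀ r ∈ L, ‖(z - refl a r)⁻¹ - (z - r)⁻¹‖ ≤ 26 * exc a r := by
      intro r hr
      have h4 := hz r (hL r hr).1
      have h5 : c.re - 1 / 8 ≤ z.re := by
        rw [mem_closedBall, dist_eq_norm] at hz8
        have h3 := Complex.abs_re_le_norm (z - c)
        rw [sub_re] at h3
        have := (abs_le.1 (h3.trans hz8)).1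
        linarith
      have h6 : 1 / 8 ≤ ‖z - r‖ := by
        have := Complex.abs_re_le_norm (z - r)
        rw [sub_re] at this
        exact (by linarith [le_abs_self (z.re - r.re)] : (1:ℝ) / 8 ≤ |z.re - r.re|).trans this
      have h7 : 5 / 8 ≤ ‖z - refl a r‖ := by
        have h8 := Complex.abs_re_le_norm (z - refl a r)
        rw [sub_re] at h8
        have h9 := refl_re a r
        exact (by linarith [le_abs_self (z.re - (refl a r).re)] :
          (5:ℝ) / 8 ≤ |z.re - (refl a r).re|).trans h8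
      have hz1 : z - r ≠ 0 := norm_pos_iff.1 (by linarith)
      have hz2 : z - refl a r ≠ 0 := norm_pos_iff.1 (by linarith)
      have e : (z - refl a r)⁻¹ - (z - r)⁻¹ = -(r - refl a r) / ((z - refl a r) * (z - r)) := by
        field_simp
        ring
      rw [e, norm_div, norm_neg, norm_sub_refl, norm_mul, div_le_iff₀ (by positivity)]
      have h10 := exc_nonneg a r
      have h11 : (5:ℝ) / 8 * (1 / 8) ≤ ‖z - refl a r‖ * ‖z - r‖ := by gcongr
      nlinarith
    refine (list_norm_sum L _ _ h3).trans ?_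
    rw [list_sum_mul]
    exact le_refl _
  · intro s hs
    rw [hprod, HH_norm]
    refine mul_le_mul_of_nonneg_right ?_ (norm_nonneg _)
    exact (list_prod_mono L _ _ (fun _ _ => norm_nonneg _) (fun r _ => le_refl' hs r)).1
  · rw [hprod, HH_norm, mul_right_comm]
    refine mul_le_mul_of_nonneg_right ?_ (norm_nonneg _)
    have h3 : (L.map (fun r => ‖c - refl a r‖)).prod ≤
        (L.map (fun r => ‖c - r‖ * Real.exp (8 * exc a r))).prod := by
      refine (list_prod_mono L _ _ (fun _ _ => norm_nonneg _) (fun r hr => ?_)).1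
      have h4 := hz r (hL r hr).1
      have h5 : 1 / 4 ≤ ‖c - r‖ := by
        have := Complex.abs_re_le_norm (c - r)
        rw [sub_re] at this
        exact (by linarith [le_abs_self (c.re - r.re)] : (1:ℝ) / 4 ≤ |c.re - r.re|).trans this
      have h6 : ‖c - refl a r‖ ≤ ‖c - r‖ + 2 * exc a r := by
        have h7 : c - refl a r = (c - r) + (r - refl a r) := by ring
        rw [h7]
        refine (norm_add_le _ _).trans ?_
        rw [norm_sub_refl]
      have h8 := exc_nonneg a r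
      have h9 := Real.add_one_le_exp (8 * exc a r)
      calc ‖c - refl a r‖ ≤ ‖c - r‖ + 2 * exc a r := h6
        _ ≤ ‖c - r‖ * (8 * exc a r + 1) := by nlinarith
        _ ≤ ‖c - r‖ * Real.exp (8 * exc a r) := by gcongr
    refine h3.trans (le_of_eq ?_)
    unfold ZZ
    clear h3 hFG hL hprod hne hld hpos h26
    induction L with
    | nil => simp
    | cons b L ih =>
      simp only [List.map_cons, List.prod_cons, List.sum_cons]
      rw [ih, mul_add, Real.exp_add]
      ring

/-- lower and upper bound for the real part of the logarithmic derivative -/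
lemma key_bounds {f : ℂ → ℂ} {D Y : ℝ} (hD : 1 ≤ D) (hY0 : 0 ≤ Y)
    (hf : DifferentiableOn ℂ f (ball 0 (3 / 4))) (hfD : ∀ z : ℂ, ‖z‖ < 3 / 4 → -D ≤ (f z).re)
    (hfY : ∀ z : ℂ, ‖z‖ ≤ 1 / 8 → ‖f z‖ ≤ Y) {M : ℕ} (hM : 1 ≤ M) (hYD : Y * 144 ^ M ≤ D)
    {x : ℝ} (hx0 : 0 < x) (hx : x ≤ 3 / 4) :
    -(2 * D / 12 ^ M) - 5 * D * Real.exp (-(2 * x * M / 3)) ≤ (f (-((3 / 4 - x : ℝ) : ℂ))).re ∧
    (f (-((3 / 4 - x : ℝ) : ℂ))).re * (1 - Real.exp (-(2 * x * M / 3))) ≤ 6 * D := by
  set z : ℂ := -((3 / 4 - x : ℝ) : ℂ) with hz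
  have hzn : ‖z‖ = 3 / 4 - x := by
    rw [hz, norm_neg, norm_real, Real.norm_of_nonneg (by linarith)]
  have hR1 : (0:ℝ) < 3 / 4 - x / 2 := by linarith
  have hzR : ‖z‖ < 3 / 4 - x / 2 := by rw [hzn]; linarith
  obtain ⟨h1, h2⟩ := three (f := f) (R := 3 / 4) (R1 := 3 / 4 - x / 2) (D := D) (Y := Y)
    (by linarith) hR1 (by linarith) hf hfD (hfY 0 (by simp)) hM hzR
  have hη := eta_le hf hY0 hfY M
  set η := eta f (3 / 4) M with hηd
  have hη0 : 0 ≤ η := Finset.sum_nonneg fun n _ => by positivity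
  set w : ℝ := (‖z‖ / (3 / 4 - x / 2)) ^ M with hw
  have hw0 : 0 ≤ w := by positivity
  have hwe : w ≤ Real.exp (-(2 * x * M / 3)) := by
    have h3 : ‖z‖ / (3 / 4 - x / 2) ≤ Real.exp (-(2 * x / 3)) := by
      have h4 : ‖z‖ / (3 / 4 - x / 2) ≤ 1 - 2 * x / 3 := by
        rw [div_le_iff₀ hR1, hzn]
        nlinarith
      have h5 := Real.add_one_le_exp (-(2 * x / 3))
      linarith
    have h6 : Real.exp (-(2 * x * M / 3)) = Real.exp (-(2 * x / 3)) ^ M := by
      rw [← Real.exp_nat_mul]; congr 1; ring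
    rw [h6, hw]
    exact pow_le_pow_left₀ (by positivity) h3 M
  have h12 : (1:ℝ) ≤ 12 ^ M := one_le_pow₀ (by norm_num)
  have h12p : (0:ℝ) < 12 ^ M := by positivity
  have h144 : (144:ℝ) ^ M = 12 ^ M * 12 ^ M := by rw [← mul_pow]; norm_num
  have hM12 : (12:ℝ) ≤ 12 ^ M := by
    calc (12:ℝ) = 12 ^ 1 := by norm_num
      _ ≤ 12 ^ M := pow_le_pow_right₀ (by norm_num) hM
  have hY1 : Y * 12 ^ M ≤ D / 12 ^ M := by
    rw [le_div_iff₀ h12p, mul_assoc, ← h144]; exact hYD
  have hY2 : Y ≤ D / 12 ^ M := by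
    refine le_trans ?_ hY1
    nlinarith
  have hDM : D / 12 ^ M ≤ D / 12 := by
    apply div_le_div_of_nonneg_left (by linarith) (by norm_num) hM12
  have hη1 : η ≤ D / 12 ^ M := hη.trans hY1
  have hsum : Y + (D + η + 1) ≤ 5 / 2 * D := by linarith
  constructor
  · have h7 : 2 * w * (Y + (D + η + 1)) ≤ 5 * D * Real.exp (-(2 * x * M / 3)) := by
      calc 2 * w * (Y + (D + η + 1)) ≤ 2 * w * (5 / 2 * D) := by gcongr
        _ = 5 * D * w := by ring
        _ ≤ _ := by gcongr
    have h8 : 2 * D / 12 ^ M = D / 12 ^ M + D / 12 ^ M := by ring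
    linarith
  · set e := Real.exp (-(2 * x * M / 3)) with he
    have he1 : e ≤ 1 := by
      rw [he, Real.exp_le_one_iff]
      have : 0 ≤ 2 * x * M / 3 := by positivity
      linarith
    have hw1 : w < 1 := by
      have h3 : ‖z‖ / (3 / 4 - x / 2) < 1 := (div_lt_one hR1).2 hzR
      exact pow_lt_one₀ (by positivity) h3 (by omega)
    rcases le_total 0 (f z).re with h0 | h0
    · have h3 : (f z).re * (1 - e) ≤ (f z).re * (1 - w) := by nlinarith
      have h4 : (Y + (D + η + 1)) * (1 + w) ≤ 5 / 2 * D * 2 := by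
        have : 0 ≤ Y + (D + η + 1) := by linarith
        nlinarith
      have h5 : η * (1 - w) ≤ D / 12 := by nlinarith
      linarith
    · have h3 : (f z).re * (1 - e) ≤ 0 := mul_nonpos_of_nonpos_of_nonneg h0 (by linarith)
      linarith

/-- The local bound. -/
theorem core (F : ℂ → ℂ) (hF : Differentiable ℂ F) (c : ℂ) {B C1 a : ℝ} (hB : 1 ≤ B)
    (hC1 : 1 ≤ C1) (hFc : F c ≠ 0) (ha : a = c.re - 3 / 4)
    (hM : ∀ z ∈ closedBall c 1, ‖F z‖ ≤ Real.exp B * ‖F c‖)
    (hz : ∀ ρ, F ρ = 0 → ρ.re ≤ c.re - 1 / 4)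
    (h1 : ∀ z ∈ closedBall c (1 / 8), ‖deriv F z / F z‖ ≤ C1) :
    ∃ (L : List ℂ) (G : ℂ → ℂ), (∀ ρ ∈ L, F ρ = 0 ∧ ρ ∈ closedBall c (7 / 8)) ∧
      Differentiable ℂ G ∧ (∀ z ∈ closedBall c (7 / 8), G z ≠ 0) ∧
      (∀ v, F v = (L.map (fun r => v - r)).prod * G v) ∧ (L.length : ℝ) ≤ 8 * B ∧
      ∀ M : ℕ, 1 ≤ M → (C1 + 26 * ZZ a L) * 144 ^ M ≤ 8064 * B →
        (∀ x : ℝ, 0 ≤ x → x ≤ 3 / 4 →
          ‖F (c - ((3 / 4 - x : ℝ) : ℂ))‖ ≤
            ‖F c‖ * Real.exp (10 * (8064 * B) / M * Real.exp (-(2 * x * M / 3)))) ∧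
        (∀ S : List ℂ, S.Sublist L → (∀ ρ ∈ S, ‖ρ - (c - (3 / 4 : ℝ))‖ ≤ 1 / (2 * M)) →
          (S.length : ℝ) ≤ 50 * (8064 * B) / M) := by
  have hFc0 : 0 < ‖F c‖ := norm_pos_iff.2 hFc
  obtain ⟨L, G, hL, -, hG, hGK, hFG, hlen, hGd⟩ := landau2 F hF c (r := 3 / 4) (R1 := 7 / 8)
    (R2 := 1) (M := Real.exp B * ‖F c‖) (by norm_num) (by norm_num) (by norm_num) hFc hM
  have hlog : Real.log (Real.exp B * ‖F c‖ / ‖F c‖) = B := by
    rw [mul_div_assoc, div_self hFc0.ne', mul_one, Real.log_exp]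
  rw [hlog] at hlen hGd
  have hlen8 : (L.length : ℝ) ≤ 8 * B := by
    have h2 : (1:ℝ) / 8 ≤ Real.log (1 / (7 / 8)) := by
      have := Real.one_sub_inv_le_log_of_pos (x := 1 / (7 / 8)) (by norm_num)
      norm_num at this ⊢
      linarith
    have h3 : (L.length : ℝ) * (1 / 8) ≤ L.length * Real.log (1 / (7 / 8)) := by gcongr
    linarith
  have hlog7 : |Real.log (7 / 8 / (1 - 7 / 8))| ≤ 2 := by
    have e : (7:ℝ) / 8 / (1 - 7 / 8) = 7 := by norm_num
    rw [e, abs_of_nonneg (Real.log_nonneg (by norm_num)), Real.log_le_iff_le_exp (by norm_num)]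
    have h3 : Real.exp 2 = Real.exp 1 ^ 2 := by rw [← Real.exp_nat_mul]; norm_num
    have h4 := Real.exp_one_gt_d9
    rw [h3]; nlinarith
  have hGd' : ∀ z ∈ closedBall c (3 / 4), ‖deriv G z / G z‖ ≤ 8064 * B := by
    intro z hz
    refine (hGd z hz).trans ?_
    have h2 : (L.length : ℝ) * |Real.log (7 / 8 / (1 - 7 / 8))| ≤ 8 * B * 2 := by
      gcongr
    have h3 : (8:ℝ) * (7 / 8) / (7 / 8 - 3 / 4) ^ 2 = 448 := by norm_num
    rw [h3]
    linarith
  refine ⟨L, G, hL, hG, hGK, hFG, hlen8, ?_⟩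
  intro M hM1 hMY
  obtain ⟨hne, h26, hlow, hup, hFH, hHc⟩ := HH_data ha hz h1 hL hG hGK hFG hGd'
  set H := HH a L G with hH
  set D : ℝ := 8064 * B with hD
  have hD1 : 1 ≤ D := by rw [hD]; linarith
  set Y : ℝ := C1 + 26 * ZZ a L with hY
  have hZ0 := ZZ_nonneg a L
  have hY0 : 0 ≤ Y := by rw [hY]; linarith
  have hHd : Differentiable ℂ H := HH_diff a L hG
  have hΦd : DifferentiableOn ℂ (fun z => deriv H z / H z) (ball c (3 / 4)) := by
    intro z hz
    have h2 : DifferentiableAt ℂ (deriv H) z := (hHd.analyticAt z).deriv.differentiableAt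
    exact (h2.div (hHd z) (hne z hz)).differentiableWithinAt
  have hmem : ∀ z : ℂ, ‖z‖ < 3 / 4 → c + z ∈ ball c (3 / 4) := by
    intro z hz
    rw [mem_ball, dist_eq_norm, add_sub_cancel_left]
    exact hz
  set f : ℂ → ℂ := fun z => deriv H (c + z) / H (c + z) with hf
  have hfd : DifferentiableOn ℂ f (ball 0 (3 / 4)) := by
    refine hΦd.comp (f := fun z => c + z) (by fun_prop) ?_
    intro z hz
    rw [mem_ball, dist_zero_right] at hz
    exact hmem z hz
  have hfD : ∀ z : ℂ, ‖z‖ < 3 / 4 → -D ≤ (f z).re := fun z hz => hlow _ (hmem z hz)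
  have hfY : ∀ z : ℂ, ‖z‖ ≤ 1 / 8 → ‖f z‖ ≤ Y := by
    intro z hz
    refine hup _ ?_
    rw [mem_closedBall, dist_eq_norm, add_sub_cancel_left]
    exact hz
  have hkb := fun (x : ℝ) (hx0 : 0 < x) (hx : x ≤ 3 / 4) =>
    key_bounds hD1 hY0 hfd hfD hfY hM1 hMY hx0 hx
  have hMpos : (0:ℝ) < M := by exact_mod_cast hM1
  have h12p : (0:ℝ) < 12 ^ M := by positivity
  -- the point
  have hpt : ∀ x : ℝ, c - ((3 / 4 - x : ℝ) : ℂ) = c + -((3 / 4 - x : ℝ) : ℂ) := fun x => by ring
  have hptb : ∀ x : ℝ, 0 < x → x ≤ 3 / 4 → c - ((3 / 4 - x : ℝ) : ℂ) ∈ ball c (3 / 4) := by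
    intro x hx0 hx
    rw [hpt]
    refine hmem _ ?_
    rw [norm_neg, norm_real, Real.norm_of_nonneg (by linarith)]
    linarith
  constructor
  · -- the bound
    obtain ⟨h, hc0, hh⟩ := hΦd.isExactOn_ball.with_val_at c 0
    have hexp : ∀ z ∈ ball c (3 / 4), H z = H c * Complex.exp (h z) := by
      have hconst : ∀ z ∈ ball c (3 / 4), H z * Complex.exp (-h z) =
          H c * Complex.exp (-h c) := by
        intro z hz
        have hd : ∀ w ∈ ball c (3 / 4), HasDerivAt (fun w => H w * Complex.exp (-h w)) 0 w := by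
          intro w hw
          have h1 : HasDerivAt (fun w => H w * Complex.exp (-h w))
              (deriv H w * Complex.exp (-h w) + H w * (Complex.exp (-h w) * -(deriv H w / H w)))
              w := (hHd w).hasDerivAt.mul (hh w hw).neg.cexp
          have hGw := hne w hw
          have h2 : deriv H w * Complex.exp (-h w) +
              H w * (Complex.exp (-h w) * -(deriv H w / H w)) = 0 := by
            field_simp
            ring
          rw [h2] at h1
          exact h1
        exact isOpen_ball.is_const_of_deriv_eq_zero (isConnected_ball (by norm_num)).isPreconnected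
          (fun w hw => (hd w hw).differentiableAt.differentiableWithinAt)
          (fun w hw => (hd w hw).deriv) hz (mem_ball_self (by norm_num))
      intro z hz
      have h1 := hconst z hz
      rw [hc0, neg_zero, Complex.exp_zero, mul_one] at h1
      rw [← h1, mul_assoc, ← Complex.exp_add]
      simp
    set k : ℝ → ℝ := fun x => (h (c - ((3 / 4 - x : ℝ) : ℂ))).re with hk
    have hkd : ∀ x : ℝ, 0 < x → x ≤ 3 / 4 →
        HasDerivAt k (f (-((3 / 4 - x : ℝ) : ℂ))).re x := by
      intro x hx0 hx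
      have h2 : HasDerivAt (fun x : ℝ => c - ((3 / 4 - x : ℝ) : ℂ)) 1 x := by
        have h3 : HasDerivAt (fun x : ℝ => ((3 / 4 - x : ℝ) : ℂ)) (-1) x := by
          have h4 : HasDerivAt (fun x : ℝ => (3 / 4 - x : ℝ)) (-1) x := by
            simpa using (hasDerivAt_id x).const_sub (3 / 4)
          simpa using h4.ofReal_comp
        simpa using h3.const_sub c
      have h5 := (hh _ (hptb x hx0 hx)).comp x h2
      rw [mul_one] at h5
      have h6 := Complex.reCLM.hasFDerivAt.comp_hasDerivAt x h5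
      simp only [Complex.reCLM_apply] at h6
      simp only [hk, hf]
      rw [← hpt]
      exact h6
    have hkx : ∀ x : ℝ, 0 < x → x ≤ 3 / 4 →
        k x ≤ 3 / 2 * D / 12 ^ M + 15 / 2 * D / M * Real.exp (-(2 * x * M / 3)) := by
      intro x hx0 hx
      set q : ℝ → ℝ := fun u => k u + 2 * D / 12 ^ M * u -
        15 / 2 * D / M * Real.exp (-(2 * u * M / 3)) with hq
      have hqd : ∀ u ∈ Icc x (3 / 4), HasDerivAt q ((f (-((3 / 4 - u : ℝ) : ℂ))).re +
          2 * D / 12 ^ M + 5 * D * Real.exp (-(2 * u * M / 3))) u := by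
        intro u hu
        have h2 := hkd u (by linarith [hu.1]) hu.2
        have h3 : HasDerivAt (fun u : ℝ => 2 * D / 12 ^ M * u) (2 * D / 12 ^ M) u := by
          simpa using (hasDerivAt_id u).const_mul (2 * D / 12 ^ M)
        have h4 : HasDerivAt (fun u : ℝ => 15 / 2 * D / M * Real.exp (-(2 * u * M / 3)))
            (-(5 * D * Real.exp (-(2 * u * M / 3)))) u := by
          have h5 : HasDerivAt (fun u : ℝ => -(2 * u * M / 3)) (-(2 * M / 3)) u := by
            have h6 := (hasDerivAt_id u).const_mul (-(2 * (M:ℝ) / 3))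
            rw [mul_one] at h6
            refine h6.congr_of_eventuallyEq (Filter.Eventually.of_forall fun v => ?_)
            simp only [id]
            ring
          have h7 := (h5.exp).const_mul (15 / 2 * D / M)
          have e : 15 / 2 * D / M * (Real.exp (-(2 * u * M / 3)) * -(2 * M / 3)) =
              -(5 * D * Real.exp (-(2 * u * M / 3))) := by
            field_simp
            ring
          rw [e] at h7
          exact h7
        have h8 := (h2.add h3).sub h4
        have e : (f (-((3 / 4 - u : ℝ) : ℂ))).re + 2 * D / 12 ^ M -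
            -(5 * D * Real.exp (-(2 * u * M / 3))) = (f (-((3 / 4 - u : ℝ) : ℂ))).re +
            2 * D / 12 ^ M + 5 * D * Real.exp (-(2 * u * M / 3)) := by ring
        rw [e] at h8
        exact h8
      have hmono : MonotoneOn q (Icc x (3 / 4)) := by
        refine monotoneOn_of_deriv_nonneg (convex_Icc _ _) ?_ ?_ ?_
        · intro u hu
          exact (hqd u hu).continuousAt.continuousWithinAt
        · intro u hu
          rw [interior_Icc] at hu
          exact (hqd u (Ioo_subset_Icc_self hu)).differentiableAt.differentiableWithinAt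
        · intro u hu
          rw [interior_Icc] at hu
          rw [(hqd u (Ioo_subset_Icc_self hu)).deriv]
          have := (hkb u (by linarith [hu.1]) hu.2.le).1
          linarith
      have h2 := hmono (left_mem_Icc.2 hx) (right_mem_Icc.2 hx) hx
      simp only [hq] at h2
      have h3 : k (3 / 4) = 0 := by
        simp only [hk]
        have : c - (((3:ℝ) / 4 - 3 / 4 : ℝ) : ℂ) = c := by simp
        rw [this, hc0, zero_re]
      rw [h3] at h2
      have h4 : 0 ≤ 2 * D / 12 ^ M * x := by positivity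
      have h5 : 0 ≤ 15 / 2 * D / M * Real.exp (-(2 * (3 / 4) * M / 3)) := by positivity
      have h6 : 3 / 2 * D / 12 ^ M = 2 * D / 12 ^ M * (3 / 4) := by ring
      linarith
    have hpos : ∀ x : ℝ, 0 < x → x ≤ 3 / 4 → ‖F (c - ((3 / 4 - x : ℝ) : ℂ))‖ ≤
        ‖F c‖ * Real.exp (10 * D / M * Real.exp (-(2 * x * M / 3))) := by
      intro x hx0 hx
      have hb := hptb x hx0 hx
      have h2 : a ≤ (c - ((3 / 4 - x : ℝ) : ℂ)).re := by
        rw [sub_re, ofReal_re, ha]; linarith
      refine (hFH _ h2).trans ?_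
      rw [hexp _ hb, norm_mul, Complex.norm_exp]
      have h3 := hkx x hx0 hx
      simp only [hk] at h3
      calc ‖H c‖ * Real.exp (h (c - ((3 / 4 - x : ℝ) : ℂ))).re
          ≤ ‖F c‖ * Real.exp (8 * ZZ a L) * Real.exp (3 / 2 * D / 12 ^ M +
            15 / 2 * D / M * Real.exp (-(2 * x * M / 3))) := by gcongr
        _ = ‖F c‖ * Real.exp (8 * ZZ a L + (3 / 2 * D / 12 ^ M +
            15 / 2 * D / M * Real.exp (-(2 * x * M / 3)))) := by rw [mul_assoc, ← Real.exp_add]
        _ ≤ ‖F c‖ * Real.exp (10 * D / M * Real.exp (-(2 * x * M / 3))) := by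
          gcongr
          have h144 : (144:ℝ) ^ M = 12 ^ M * 12 ^ M := by rw [← mul_pow]; norm_num
          have h4 : 8 * ZZ a L ≤ D / 12 ^ M := by
            rw [le_div_iff₀ h12p]
            have h5 : (1:ℝ) ≤ 12 ^ M := one_le_pow₀ (by norm_num)
            have h6 : 8 * ZZ a L ≤ Y := by rw [hY]; linarith
            calc 8 * ZZ a L * 12 ^ M ≤ Y * 12 ^ M := by gcongr
              _ ≤ Y * 144 ^ M := by
                gcongr
                norm_num
              _ ≤ D := hMY
          have h7 : D / 12 ^ M ≤ D / M * Real.exp (-(2 * x * M / 3)) := by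
            have h8 := pow12 M
            have h9 : Real.exp (-((M:ℝ) / 2)) ≤ Real.exp (-(2 * x * M / 3)) := by
              apply Real.exp_le_exp.2
              have : 2 * x * M / 3 ≤ M / 2 := by nlinarith
              linarith
            have h10 : D / 12 ^ M ≤ D / M * Real.exp (-((M:ℝ) / 2)) := by
              rw [Real.exp_neg, div_le_iff₀ h12p]
              have h11 : 0 < Real.exp ((M:ℝ) / 2) := Real.exp_pos _
              have e : D / M * (Real.exp ((M:ℝ) / 2))⁻¹ * 12 ^ M =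
                  D * (12 ^ M / (M * Real.exp ((M:ℝ) / 2))) := by
                field_simp
              rw [e]
              have h12 : 1 ≤ 12 ^ M / ((M:ℝ) * Real.exp ((M:ℝ) / 2)) := by
                rw [one_le_div (by positivity)]; exact h8
              nlinarith
            refine h10.trans ?_
            gcongr
          have e1 : 3 / 2 * D / 12 ^ M = 3 / 2 * (D / 12 ^ M) := by ring
          have e2 : 15 / 2 * D / M * Real.exp (-(2 * x * M / 3)) =
            15 / 2 * (D / M * Real.exp (-(2 * x * M / 3))) := by ring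
          have e3 : 10 * D / M * Real.exp (-(2 * x * M / 3)) =
            10 * (D / M * Real.exp (-(2 * x * M / 3))) := by ring
          rw [e1, e2, e3]
          linarith
    intro x hx0 hx
    rcases hx0.lt_or_eq with h0 | h0
    · exact hpos x h0 hx
    · -- continuity
      subst h0
      have hc1 : Tendsto (fun x : ℝ => ‖F (c - ((3 / 4 - x : ℝ) : ℂ))‖) (𝓝[>] 0)
          (𝓝 ‖F (c - ((3 / 4 - 0 : ℝ) : ℂ))‖) := by
        have hcont : Continuous (fun x : ℝ => ‖F (c - ((3 / 4 - x : ℝ) : ℂ))‖) := by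
          refine (hF.continuous.comp ?_).norm
          exact continuous_const.sub (Complex.continuous_ofReal.comp (by fun_prop))
        exact (hcont.tendsto 0).mono_left nhdsWithin_le_nhds
      have hc2 : Tendsto (fun x : ℝ => ‖F c‖ * Real.exp (10 * D / M *
          Real.exp (-(2 * x * M / 3)))) (𝓝[>] 0)
          (𝓝 (‖F c‖ * Real.exp (10 * D / M * Real.exp (-(2 * 0 * M / 3))))) := by
        have hcont : Continuous (fun x : ℝ => ‖F c‖ * Real.exp (10 * D / M *
          Real.exp (-(2 * x * M / 3)))) := by fun_prop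
        exact (hcont.tendsto 0).mono_left nhdsWithin_le_nhds
      refine le_of_tendsto_of_tendsto hc1 hc2 ?_
      filter_upwards [Ioo_mem_nhdsGT (show (0:ℝ) < 3 / 4 by norm_num)] with u hu
      exact hpos u hu.1 hu.2.le
  · -- the count
    intro S hS hSr
    set x : ℝ := 1 / (2 * M) with hx
    have hM1' : (1:ℝ) ≤ M := by exact_mod_cast hM1
    have hx0 : 0 < x := by positivity
    have hx1 : x ≤ 3 / 4 := by
      rw [hx, div_le_iff₀ (by positivity)]; linarith
    have hxM : 2 * x * M / 3 = 1 / 3 := by rw [hx]; field_simp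
    have h2 := (hkb x hx0 hx1).2
    rw [hxM] at h2
    have he : Real.exp (-(1 / 3)) ≤ 3 / 4 := by
      rw [Real.exp_neg, inv_le_comm₀ (Real.exp_pos _) (by norm_num)]
      have := Real.add_one_le_exp ((1:ℝ) / 3)
      norm_num at this ⊢
      linarith
    set z : ℂ := c - ((3 / 4 - x : ℝ) : ℂ) with hzd
    have hfz : f (-((3 / 4 - x : ℝ) : ℂ)) = deriv H z / H z := by
      simp only [hf]; rw [← hpt]
    rw [hfz] at h2
    have h3 := h26 z (hptb x hx0 hx1)
    have hzre : z.re = a + x := by rw [hzd, sub_re, ofReal_re, ha]; ring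
    have h4 : ∀ r : ℂ, 0 ≤ ((z - refl a r)⁻¹).re := by
      intro r
      rw [inv_re]
      refine div_nonneg ?_ (normSq_nonneg _)
      rw [sub_re]
      have := refl_re a r
      linarith
    have h5 : (S.length : ℝ) * (M / 2) ≤ ((L.map (fun r => (z - refl a r)⁻¹)).sum).re := by
      have h6 := list_re_sum L (fun r => (z - refl a r)⁻¹) (fun r => ((z - refl a r)⁻¹).re)
        (fun r _ => le_rfl)
      refine le_trans ?_ h6
      have h7 : (S.map (fun r => ((z - refl a r)⁻¹).re)).sum ≤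
          (L.map (fun r => ((z - refl a r)⁻¹).re)).sum := by
        refine List.Sublist.sum_le_sum (hS.map _) ?_
        intro y hy
        obtain ⟨r, _, rfl⟩ := List.mem_map.1 hy
        exact h4 r
      refine le_trans ?_ h7
      have h8 : ∀ r ∈ S, (M:ℝ) / 2 ≤ ((z - refl a r)⁻¹).re := by
        intro r hr
        have h9 := hSr r hr
        have hp0 : (c - ((3 / 4 : ℝ) : ℂ)).re = a := by rw [sub_re, ofReal_re, ha]
        have h10 : ‖z - refl a r‖ ≤ 2 * x := by
          have h11 : z - refl a r = (x : ℂ) + ((c - ((3 / 4 : ℝ) : ℂ)) - refl a r) := by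
            rw [hzd]; push_cast; ring
          rw [h11]
          refine (norm_add_le _ _).trans ?_
          rw [eq_refl' hp0, norm_real, Real.norm_of_nonneg hx0.le, norm_sub_rev]
          linarith
        have h12 : x ≤ (z - refl a r).re := by
          rw [sub_re, hzre]
          have := refl_re a r
          linarith
        have h13 : 0 < ‖z - refl a r‖ := by
          have h14 := (le_abs_self _).trans (Complex.abs_re_le_norm (z - refl a r))
          linarith
        rw [inv_re, normSq_eq_norm_sq, le_div_iff₀ (by positivity)]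
        have h15 : ‖z - refl a r‖ ^ 2 ≤ (2 * x) ^ 2 := pow_le_pow_left₀ (norm_nonneg _) h10 2
        have h16 : (M:ℝ) / 2 * (2 * x) ^ 2 = x := by rw [hx]; field_simp
        calc (M:ℝ) / 2 * ‖z - refl a r‖ ^ 2 ≤ (M:ℝ) / 2 * (2 * x) ^ 2 := by gcongr
          _ = x := h16
          _ ≤ _ := h12
      clear h7 h6 h3 h2 hS hSr
      induction S with
      | nil => simp
      | cons b S ih =>
        simp only [List.map_cons, List.sum_cons, List.length_cons]
        have h9 := h8 b List.mem_cons_self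
        have h10 := ih fun r hr => h8 r (List.mem_cons_of_mem _ hr)
        push_cast
        linarith
    have h6 : (deriv H z / H z).re ≤ 24 * D := by
      rcases le_total 0 (deriv H z / H z).re with h0 | h0
      · nlinarith
      · linarith
    rw [le_div_iff₀ hMpos]
    linarith

end

end Pool.Agent.Y757.LL
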