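import Pool.Agent.Y757.LL.Core

/-!
# The local bound in terms of analytic orders, for an arbitrary entire function
-/

set_option autoImplicit false

open Complex Filter Topology Set Metric Pool.Agent.H437R2

namespace Pool.Agent.Y757.LL

noncomputable section

open Classical in
lemma count_order {F G : ℂ → ℂ} {L : List ℂ} (hG : Differentiable ℂ G)
    (hFG : ∀ v, F v = (L.map (fun r => v - r)).prod * G v) {ρ : ℂ} (hρ : G ρ ≠ 0) :
    analyticOrderNatAt F ρ = L.count ρ := by
  have hprod : ∀ L' : List ℂ, ∀ v : ℂ, (L'.map (fun r => v - r)).prod =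
      (v - ρ) ^ (L'.count ρ) * ((L'.filter (fun r => r ≠ ρ)).map (fun r => v - r)).prod := by
    intro L' v
    induction L' with
    | nil => simp
    | cons b L' ih =>
      by_cases hb : b = ρ
      · subst hb
        simp only [List.map_cons, List.prod_cons, List.count_cons_self, ne_eq, not_true_eq_false,
          decide_false, Bool.false_eq_true, not_false_eq_true, List.filter_cons_of_neg]
        rw [ih, pow_succ]
        ring
      · rw [List.count_cons_of_ne (fun h => hb h), List.filter_cons_of_pos (by simpa using hb)]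
        simp only [List.map_cons, List.prod_cons]
        rw [ih]
        ring
  have hd : ∀ L' : List ℂ, Differentiable ℂ (fun v : ℂ => (L'.map (fun r => v - r)).prod) := by
    intro L'
    induction L' with
    | nil => simp
    | cons a L' ih =>
      simp only [List.map_cons, List.prod_cons]
      exact Differentiable.mul (by fun_prop) ih
  have hFd : Differentiable ℂ F := by
    have : F = fun v => (L.map (fun r => v - r)).prod * G v := funext hFG
    rw [this]
    exact (hd L).mul hG
  have horder : analyticOrderAt F ρ = (L.count ρ : ℕ) := by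
    rw [(hFd.analyticAt ρ).analyticOrderAt_eq_natCast]
    refine ⟨fun v => ((L.filter (fun r => r ≠ ρ)).map (fun r => v - r)).prod * G v,
      ((hd _).mul hG).analyticAt ρ, ?_, Filter.Eventually.of_forall fun v => ?_⟩
    · refine mul_ne_zero ?_ hρ
      rw [Ne, List.prod_eq_zero_iff]
      intro h0
      obtain ⟨r, hr, hr0⟩ := List.mem_map.1 h0
      rw [List.mem_filter] at hr
      have := hr.2
      simp only [ne_eq, decide_eq_true_eq] at this
      exact this (sub_eq_zero.1 hr0).symm
    · rw [hFG, hprod, smul_eq_mul]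
      ring
  rw [analyticOrderNatAt, horder]
  rfl

/-- zeros right of the line, within distance one in height -/
def zset (F : ℂ → ℂ) (a t : ℝ) : Set ℂ := {ρ | F ρ = 0 ∧ a < ρ.re ∧ |ρ.im - t| ≤ 1}

/-- sum of the distances to the line -/
def Zs (F : ℂ → ℂ) (a t : ℝ) : ℝ :=
  ∑ᶠ ρ ∈ zset F a t, (analyticOrderNatAt F ρ : ℝ) * (ρ.re - a)

/-- zeros near the point -/
def nset (F : ℂ → ℂ) (a t r : ℝ) : Set ℂ := {ρ | F ρ = 0 ∧ ‖ρ - (a + t * I)‖ ≤ r}

/-- number of zeros near the point -/
def Ns (F : ℂ → ℂ) (a t r : ℝ) : ℝ := ∑ᶠ ρ ∈ nset F a t r, (analyticOrderNatAt F ρ : ℝ)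

lemma Zs_nonneg (F : ℂ → ℂ) (a t : ℝ) : 0 ≤ Zs F a t := by
  unfold Zs
  refine finsum_nonneg fun ρ => finsum_nonneg fun hρ => ?_
  have := hρ.2.1
  have : 0 ≤ ρ.re - a := by linarith
  positivity

/-- the exponent -/
def Mx (B C1 Z : ℝ) : ℝ := Real.log (Real.exp 1 + B / (C1 + Z))

theorem general (F : ℂ → ℂ) (hF : Differentiable ℂ F) {a t B C1 : ℝ} (hB : 1 ≤ B)
    (hC1 : 1 ≤ C1) (hFc : F (a + (3 / 4 : ℝ) + t * I) ≠ 0)
    (hM : ∀ z ∈ closedBall ((a : ℂ) + (3 / 4 : ℝ) + t * I) 1,
      ‖F z‖ ≤ Real.exp B * ‖F (a + (3 / 4 : ℝ) + t * I)‖)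
    (hz : ∀ ρ, F ρ = 0 → ρ.re ≤ a + 1 / 2)
    (h1 : ∀ z ∈ closedBall ((a : ℂ) + (3 / 4 : ℝ) + t * I) (1 / 8), ‖deriv F z / F z‖ ≤ C1) :
    (∀ x : ℝ, 0 ≤ x → x ≤ 3 / 4 → ‖F (a + x + t * I)‖ ≤
      ‖F (a + (3 / 4 : ℝ) + t * I)‖ * Real.exp (5000000 * (B / Mx B C1 (Zs F a t)) *
        Real.exp (-(x * Mx B C1 (Zs F a t) / 15)))) ∧
    Ns F a t (1 / (8 * Mx B C1 (Zs F a t))) ≤ 5000000 * (B / Mx B C1 (Zs F a t)) := by
  classical
  set c : ℂ := (a : ℂ) + (3 / 4 : ℝ) + t * I with hc
  have hcre : c.re = a + 3 / 4 := by simp [hc]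
  have hcim : c.im = t := by simp [hc]
  obtain ⟨L, G, hL, hG, hGK, hFG, hlen, hcore⟩ := core F hF c hB hC1 hFc
    (a := a) (by rw [hcre]; ring) hM (by intro ρ hρ; rw [hcre]; linarith [hz ρ hρ]) h1
  have hne : ∃ v, F v ≠ 0 := ⟨c, hFc⟩
  have hcount : ∀ ρ ∈ closedBall c (7 / 8), analyticOrderNatAt F ρ = L.count ρ :=
    fun ρ hρ => count_order hG hFG (hGK ρ hρ)
  -- finiteness
  have hfin : (zset F a t).Finite := by
    refine (zeros_finite F hF hne (closedBall c 3) (isCompact_closedBall _ _)).subset ?_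
    rintro ρ ⟨h2, h3, h4⟩
    refine ⟨h2, ?_⟩
    rw [mem_closedBall, dist_eq_norm]
    refine (Complex.norm_le_abs_re_add_abs_im _).trans ?_
    rw [sub_re, sub_im, hcre, hcim]
    have h5 := hz ρ h2
    have h6 : |ρ.re - (a + 3 / 4)| ≤ 1 := by rw [abs_le]; constructor <;> linarith
    linarith
  have hfinN : ∀ r : ℝ, (nset F a t r).Finite := by
    intro r
    refine (zeros_finite F hF hne (closedBall (a + t * I) r) (isCompact_closedBall _ _)).subset ?_
    rintro ρ ⟨h2, h3⟩
    exact ⟨h2, by rw [mem_closedBall, dist_eq_norm]; exact h3⟩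
  -- comparison of the sums
  have hZZ : ZZ a L ≤ Zs F a t := by
    unfold ZZ Zs
    rw [finsum_mem_eq_finite_toFinset_sum _ hfin, Finset.sum_list_map_count]
    have h2 : ∑ ρ ∈ L.toFinset, L.count ρ • exc a ρ =
        ∑ ρ ∈ L.toFinset.filter (fun ρ => a < ρ.re), L.count ρ • exc a ρ := by
      symm
      refine Finset.sum_subset (Finset.filter_subset _ _) ?_
      intro ρ hρ hρ2
      rw [Finset.mem_filter, not_and] at hρ2
      have := hρ2 hρ
      push Not at this
      unfold exc
      rw [max_eq_right (by linarith), smul_zero]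
    rw [h2]
    have hsub : L.toFinset.filter (fun ρ => a < ρ.re) ⊆ hfin.toFinset := by
      intro ρ hρ
      rw [Finset.mem_filter, List.mem_toFinset] at hρ
      rw [Set.Finite.mem_toFinset]
      have h3 := hL ρ hρ.1
      refine ⟨h3.1, hρ.2, ?_⟩
      have h4 := h3.2
      rw [mem_closedBall, dist_eq_norm] at h4
      have h5 := Complex.abs_im_le_norm (ρ - c)
      rw [sub_im, hcim] at h5
      linarith
    refine le_trans (le_of_eq ?_) (Finset.sum_le_sum_of_subset_of_nonneg hsub ?_)
    · refine Finset.sum_congr rfl fun ρ hρ => ?_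
      rw [Finset.mem_filter, List.mem_toFinset] at hρ
      rw [hcount ρ (hL ρ hρ.1).2, nsmul_eq_mul]
      unfold exc
      rw [max_eq_left (by linarith)]
    · intro ρ hρ _
      rw [Set.Finite.mem_toFinset] at hρ
      have : 0 ≤ ρ.re - a := by linarith [hρ.2.1]
      positivity
  set Z : ℝ := Zs F a t with hZ
  have hZ0 : 0 ≤ Z := Zs_nonneg F a t
  set Q : ℝ := B / (C1 + Z) with hQ
  have hCZ : 0 < C1 + Z := by linarith
  have hQ0 : 0 < Q := by positivity
  have he0 : 0 < Real.exp 1 := Real.exp_pos 1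
  have he1 := Real.exp_one_gt_d9
  have he2 := Real.exp_one_lt_d9
  set M' : ℝ := Mx B C1 Z with hM'
  have hM'def : M' = Real.log (Real.exp 1 + Q) := rfl
  have hM'1 : 1 ≤ M' := by
    rw [hM'def, Real.le_log_iff_exp_le (by positivity)]
    linarith
  -- points of the segment
  have hpt : ∀ x : ℝ, (a : ℂ) + x + t * I = c - ((3 / 4 - x : ℝ) : ℂ) := by
    intro x; rw [hc]; push_cast; ring
  -- the count through the list
  have hNle : ∀ r : ℝ, r ≤ 1 / 8 → Ns F a t r =
      ((L.filter (fun ρ => ‖ρ - (a + t * I)‖ ≤ r)).length : ℝ) := by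
    intro r hr
    unfold Ns
    rw [finsum_mem_eq_finite_toFinset_sum _ (hfinN r)]
    have hmem : ∀ ρ ∈ (hfinN r).toFinset, ρ ∈ closedBall c (7 / 8) := by
      intro ρ hρ
      rw [Set.Finite.mem_toFinset] at hρ
      rw [mem_closedBall, dist_eq_norm]
      have e : ρ - c = (ρ - (a + t * I)) - ((3 / 4 : ℝ) : ℂ) := by rw [hc]; ring
      rw [e]
      refine (norm_sub_le _ _).trans ?_
      rw [norm_real, Real.norm_of_nonneg (by norm_num)]
      have := hρ.2
      linarith
    have h2 : ((L.filter (fun ρ => ‖ρ - (a + t * I)‖ ≤ r)).length : ℝ) =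
        ∑ ρ ∈ (L.filter (fun ρ => ‖ρ - (a + t * I)‖ ≤ r)).toFinset,
          ((L.filter (fun ρ => ‖ρ - (a + t * I)‖ ≤ r)).count ρ : ℝ) := by
      have := List.sum_toFinset_count_eq_length (L.filter (fun ρ => ‖ρ - (a + t * I)‖ ≤ r))
      exact_mod_cast this.symm
    rw [h2]
    have h3 : (L.filter (fun ρ => ‖ρ - (a + t * I)‖ ≤ r)).toFinset ⊆ (hfinN r).toFinset := by
      intro ρ hρ
      rw [List.mem_toFinset, List.mem_filter] at hρ
      rw [Set.Finite.mem_toFinset]
      exact ⟨(hL ρ hρ.1).1, by simpa using hρ.2⟩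
    symm
    rw [Finset.sum_subset h3]
    · refine Finset.sum_congr rfl fun ρ hρ => ?_
      have hρ' := hρ
      rw [Set.Finite.mem_toFinset] at hρ'
      rw [hcount ρ (hmem ρ hρ), List.count_filter (by simpa using hρ'.2)]
    · intro ρ _ hρ2
      rw [List.mem_toFinset] at hρ2
      rw [List.count_eq_zero_of_not_mem hρ2, Nat.cast_zero]
  have hr8 : 1 / (8 * M') ≤ 1 / 8 := by
    apply div_le_div_of_nonneg_left (by norm_num) (by norm_num)
    linarith
  rw [hNle _ hr8]
  rcases lt_or_ge Q (144 / 310) with hsmall | hbig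
  · -- the trivial case
    have hM'2 : M' ≤ 6 / 5 := by
      rw [hM'def, Real.log_le_iff_le_exp (by positivity)]
      have h2 := Real.add_one_le_exp ((1:ℝ) / 5)
      have h3 : Real.exp (6 / 5) = Real.exp 1 * Real.exp (1 / 5) := by
        rw [← Real.exp_add]; norm_num
      rw [h3]
      nlinarith
    have hBM : 5 / 6 * B ≤ B / M' := by
      rw [le_div_iff₀ (by linarith)]
      nlinarith
    constructor
    · intro x hx0 hx
      have hmem : (a : ℂ) + x + t * I ∈ closedBall c 1 := by
        rw [hpt, mem_closedBall, dist_eq_norm, sub_sub_cancel_left, norm_neg, norm_real,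
          Real.norm_of_nonneg (by linarith)]
        linarith
      refine (hM _ hmem).trans ?_
      rw [mul_comm]
      gcongr
      have h4 : (1:ℝ) / 2 ≤ Real.exp (-(x * M' / 15)) := by
        have h5 := Real.add_one_le_exp (-(x * M' / 15))
        have h6 : x * M' ≤ 3 / 4 * (6 / 5) := by gcongr
        linarith
      calc B ≤ 5000000 * (5 / 6 * B) * (1 / 2) := by linarith
        _ ≤ 5000000 * (B / M') * Real.exp (-(x * M' / 15)) := by gcongr
    · have h4 : ((L.filter (fun ρ => ‖ρ - (a + t * I)‖ ≤ 1 / (8 * M'))).length : ℝ) ≤ L.length := by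
        exact_mod_cast List.length_filter_le _ _
      linarith
  · -- the main case
    have h310 : 144 ≤ 310 * Q := by
      rw [div_le_iff₀ (by norm_num)] at hbig
      linarith
    set u : ℝ := Real.log (310 * Q) / Real.log 144 with hu
    have hlog144 : 0 < Real.log 144 := Real.log_pos (by norm_num)
    have hu1 : 1 ≤ u := by
      rw [hu, le_div_iff₀ hlog144, one_mul]
      exact Real.log_le_log (by norm_num) h310
    set M : ℕ := ⌊u⌋₊ with hMdef
    have hM1 : 1 ≤ M := by
      rw [hMdef, Nat.one_le_floor_iff]; exact hu1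
    have hM1r : (1:ℝ) ≤ M := by exact_mod_cast hM1
    have hMu : (M : ℝ) ≤ u := Nat.floor_le (by linarith)
    have huM : u < M + 1 := Nat.lt_floor_add_one u
    have h144M : (144:ℝ) ^ M ≤ 310 * Q := by
      have h2 : Real.log ((144:ℝ) ^ M) ≤ Real.log (310 * Q) := by
        rw [Real.log_pow]
        rw [hu, le_div_iff₀ hlog144] at hMu
        exact hMu
      exact (Real.log_le_log_iff (by positivity) (by positivity)).1 h2
    have hcond : (C1 + 26 * ZZ a L) * 144 ^ M ≤ 8064 * B := by
      calc (C1 + 26 * ZZ a L) * 144 ^ M ≤ (26 * (C1 + Z)) * (310 * Q) := by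
            have := ZZ_nonneg a L
            gcongr
            linarith
        _ = 8060 * B := by rw [hQ]; field_simp; ring
        _ ≤ 8064 * B := by linarith
    obtain ⟨hA, hS⟩ := hcore M hM1 hcond
    -- `M` against `M'`
    have hl144a : Real.log 144 ≤ 5 := by
      rw [Real.log_le_iff_le_exp (by norm_num)]
      have h3 : Real.exp 5 = Real.exp 1 ^ 5 := by rw [← Real.exp_nat_mul]; norm_num
      rw [h3]
      calc (144:ℝ) ≤ (2.7182818283:ℝ) ^ 5 := by norm_num
        _ ≤ Real.exp 1 ^ 5 := by gcongr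
    have hl144b : 4 ≤ Real.log 144 := by
      rw [Real.le_log_iff_exp_le (by norm_num)]
      have h3 : Real.exp 4 = Real.exp 1 ^ 4 := by rw [← Real.exp_nat_mul]; norm_num
      rw [h3]
      calc Real.exp 1 ^ 4 ≤ (2.7182818286:ℝ) ^ 4 := by gcongr
        _ ≤ 144 := by norm_num
    have hMlow : M' / 10 ≤ M := by
      have h2 : M' ≤ Real.log (310 * Q) := by
        rw [hM'def]
        apply Real.log_le_log (by positivity)
        linarith
      have h3 : Real.log (310 * Q) = u * Real.log 144 := by
        rw [hu, div_mul_cancel₀ _ hlog144.ne']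
      have h4 : u ≤ 2 * M := by linarith
      have h5 : u * Real.log 144 ≤ 2 * M * 5 := by gcongr
      linarith
    have hMup : (M : ℝ) ≤ 2 * M' := by
      have h2 : Real.log (310 * Q) ≤ 6 + M' := by
        have h3 : 310 * Q ≤ Real.exp 6 * (Real.exp 1 + Q) := by
          have h4 : (310:ℝ) ≤ Real.exp 6 := by
            have h3 : Real.exp 6 = Real.exp 1 ^ 6 := by rw [← Real.exp_nat_mul]; norm_num
            rw [h3]
            calc (310:ℝ) ≤ (2.7182818283:ℝ) ^ 6 := by norm_num
              _ ≤ Real.exp 1 ^ 6 := by gcongr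
          nlinarith [Real.exp_pos 6]
        have h5 := Real.log_le_log (by positivity) h3
        rwa [Real.log_mul (Real.exp_pos 6).ne' (by positivity), Real.log_exp, ← hM'def] at h5
      have h3 : Real.log (310 * Q) = u * Real.log 144 := by
        rw [hu, div_mul_cancel₀ _ hlog144.ne']
      have h4 : u * 4 ≤ u * Real.log 144 := by gcongr
      linarith
    have hMpos : (0:ℝ) < M := by linarith
    have hM'pos : 0 < M' := by linarith
    have hBM : B / M ≤ 10 * (B / M') := by
      rw [div_le_iff₀ hMpos]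
      have : 10 * (B / M') * M = B * (M / (M' / 10)) := by field_simp
      rw [this]
      have h2 : 1 ≤ (M:ℝ) / (M' / 10) := by
        rw [one_le_div (by positivity)]; exact hMlow
      nlinarith
    constructor
    · intro x hx0 hx
      have h2 := hA x hx0 hx
      rw [hpt]
      refine h2.trans ?_
      gcongr ?_ * ?_
      apply Real.exp_le_exp.2
      have h3 : Real.exp (-(2 * x * M / 3)) ≤ Real.exp (-(x * M' / 15)) := by
        apply Real.exp_le_exp.2
        have : x * M' / 15 ≤ 2 * x * M / 3 := by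
          have h4 : x * (M' / 10) ≤ x * M := by gcongr
          linarith
        linarith
      calc 10 * (8064 * B) / M * Real.exp (-(2 * x * M / 3))
          = 80640 * (B / M) * Real.exp (-(2 * x * M / 3)) := by ring
        _ ≤ 80640 * (10 * (B / M')) * Real.exp (-(x * M' / 15)) := by gcongr
        _ ≤ 5000000 * (B / M') * Real.exp (-(x * M' / 15)) := by
          have : 0 ≤ B / M' * Real.exp (-(x * M' / 15)) := by positivity
          nlinarith
    · have h2 := hS (L.filter (fun ρ => ‖ρ - (a + t * I)‖ ≤ 1 / (8 * M'))) List.filter_sublist ?_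
      · refine h2.trans ?_
        calc 50 * (8064 * B) / M = 403200 * (B / M) := by ring
          _ ≤ 403200 * (10 * (B / M')) := by gcongr
          _ ≤ 5000000 * (B / M') := by
            have : 0 ≤ B / M' := by positivity
            nlinarith
      · intro ρ hρ
        rw [List.mem_filter] at hρ
        have h3 : ‖ρ - (a + t * I)‖ ≤ 1 / (8 * M') := by simpa using hρ.2
        have e : c - ((3 / 4 : ℝ) : ℂ) = a + t * I := by rw [hc]; ring
        rw [e]
        refine h3.trans ?_
        apply div_le_div_of_nonneg_left (by norm_num) (by positivity)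
        linarith

end

end Pool.Agent.Y757.LL
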