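import Mathlib

/-!
# A one-sided three circles theorem

Let `f` be analytic in `|z| < R` with `Re f ≥ -D`, and `|f| ≤ Y` for `|z| ≤ ρ`. Then `Re f` is
almost `≥ -Y` well beyond the small disc; the error is `D` times the `M`-th power of a number `< 1`,
as for functions whose Taylor coefficients of index `1, …, M - 1` vanish.
-/

set_option autoImplicit false

open Complex Filter Topology Set Metric Finset

namespace Pool.Agent.Y757.LL

noncomputable section

/-- iterated divided differences at `0` -/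
def E (f : ℂ → ℂ) : ℕ → ℂ → ℂ
  | 0 => f
  | (k + 1) => dslope (E f k) 0

lemma E_diff {f : ℂ → ℂ} {R : ℝ} (hR : 0 < R) (hf : DifferentiableOn ℂ f (ball 0 R)) (k : ℕ) :
    DifferentiableOn ℂ (E f k) (ball 0 R) := by
  induction k with
  | zero => exact hf
  | succ k ih => exact (Complex.differentiableOn_dslope (ball_mem_nhds 0 hR)).2 ih

lemma E_step (f : ℂ → ℂ) (k : ℕ) (z : ℂ) : E f k z = E f k 0 + z * E f (k + 1) z := by
  have h := sub_smul_dslope (E f k) 0 z
  rw [sub_zero, smul_eq_mul] at h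
  show E f k z = E f k 0 + z * dslope (E f k) 0 z
  rw [h]; ring

lemma E_expand (f : ℂ → ℂ) (k : ℕ) (z : ℂ) :
    f z = ∑ n ∈ range k, E f n 0 * z ^ n + z ^ k * E f k z := by
  induction k with
  | zero => simp [E]
  | succ k ih =>
    rw [sum_range_succ, ih]
    rw [E_step f k z]
    ring

lemma E_bound {f : ℂ → ℂ} {R ρ Y : ℝ} (hρ : 0 < ρ) (hρR : ρ < R)
    (hf : DifferentiableOn ℂ f (ball 0 R)) (hY : ∀ z : ℂ, ‖z‖ ≤ ρ → ‖f z‖ ≤ Y) (k : ℕ) :
    ∀ z : ℂ, ‖z‖ ≤ ρ → ‖E f k z‖ ≤ (2 / ρ) ^ k * Y := by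
  induction k with
  | zero => intro z hz; simpa [E] using hY z hz
  | succ k ih =>
    intro z hz
    have hR : 0 < R := hρ.trans hρR
    have hd : DiffContOnCl ℂ (E f (k + 1)) (ball 0 ρ) := by
      refine DifferentiableOn.diffContOnCl ?_
      rw [closure_ball _ hρ.ne']
      refine (E_diff hR hf (k + 1)).mono ?_
      intro w hw
      rw [mem_closedBall, dist_zero_right] at hw
      rw [mem_ball, dist_zero_right]
      linarith
    have hfr : ∀ w ∈ frontier (ball (0:ℂ) ρ), ‖E f (k + 1) w‖ ≤ (2 / ρ) ^ (k + 1) * Y := by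
      intro w hw
      rw [frontier_ball _ hρ.ne', mem_sphere, dist_zero_right] at hw
      have h1 := E_step f k w
      have h2 : w * E f (k + 1) w = E f k w - E f k 0 := by rw [h1]; ring
      have h3 : ρ * ‖E f (k + 1) w‖ ≤ 2 * ((2 / ρ) ^ k * Y) := by
        have h4 : ‖w * E f (k + 1) w‖ ≤ ‖E f k w‖ + ‖E f k 0‖ := by
          rw [h2]; exact norm_sub_le _ _
        rw [norm_mul, hw] at h4
        have h5 := ih w hw.le
        have h6 := ih 0 (by simpa using hρ.le)
        linarith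
      have e : (2 / ρ) ^ (k + 1) * Y = 2 * ((2 / ρ) ^ k * Y) / ρ := by
        rw [pow_succ]; ring
      rw [e, le_div_iff₀ hρ]
      linarith
    refine Complex.norm_le_of_forall_mem_frontier_norm_le isBounded_ball hd hfr ?_
    rw [closure_ball _ hρ.ne', mem_closedBall, dist_zero_right]
    exact hz

/-- the coefficient sum -/
def eta (f : ℂ → ℂ) (R : ℝ) (M : ℕ) : ℝ := ∑ n ∈ Finset.Ico 1 M, ‖E f n 0‖ * R ^ n

lemma norm_refl_le {a b : ℂ} (ha : 0 ≤ a.re) (hb : 0 ≤ b.re) :
    ‖a - b‖ ≤ ‖a + (starRingEnd ℂ) b‖ := by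
  rw [← sq_le_sq₀ (norm_nonneg _) (norm_nonneg _), ← Complex.normSq_eq_norm_sq,
    ← Complex.normSq_eq_norm_sq, Complex.normSq_apply, Complex.normSq_apply]
  simp only [sub_re, sub_im, add_re, add_im, conj_re, conj_im]
  nlinarith [mul_nonneg ha hb]

lemma re_of_refl {a b : ℂ} (ha : 0 ≤ a.re) (hb : 0 ≤ b.re) {w : ℝ} (hw0 : 0 ≤ w) (hw1 : w < 1)
    (h : ‖a - b‖ ≤ w * ‖a + (starRingEnd ℂ) b‖) :
    b.re * (1 - w) ≤ a.re * (1 + w) ∧ a.re * (1 - w) ≤ b.re * (1 + w) := by
  have h1 : ‖a - b‖ ^ 2 ≤ w ^ 2 * ‖a + (starRingEnd ℂ) b‖ ^ 2 := by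
    rw [← mul_pow]
    exact pow_le_pow_left₀ (norm_nonneg _) h 2
  rw [← Complex.normSq_eq_norm_sq, ← Complex.normSq_eq_norm_sq, Complex.normSq_apply,
    Complex.normSq_apply] at h1
  simp only [sub_re, sub_im, add_re, add_im, conj_re, conj_im] at h1
  have hw2 : w ^ 2 ≤ 1 := by nlinarith
  have h2 : (a.re - b.re) ^ 2 ≤ (w * (a.re + b.re)) ^ 2 := by
    have h3 : 0 ≤ (1 - w ^ 2) * (a.im - b.im) ^ 2 := mul_nonneg (by linarith) (sq_nonneg _)
    nlinarith
  have h4 : |a.re - b.re| ≤ w * (a.re + b.re) := by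
    have h5 : 0 ≤ w * (a.re + b.re) := mul_nonneg hw0 (by linarith)
    rw [← abs_of_nonneg h5]
    exact sq_le_sq.1 h2
  rw [abs_le] at h4
  constructor <;> nlinarith [h4.1, h4.2]

/-- the one-sided three circles theorem -/
theorem three {f : ℂ → ℂ} {R R1 D Y : ℝ} (hD0 : 0 ≤ D) (hR1 : 0 < R1) (hR1R : R1 < R)
    (hf : DifferentiableOn ℂ f (ball 0 R)) (hD : ∀ z : ℂ, ‖z‖ < R → -D ≤ (f z).re)
    (hY : ‖f 0‖ ≤ Y) {M : ℕ} (hM : 1 ≤ M) {z : ℂ} (hz : ‖z‖ < R1) :
    -Y - 2 * (‖z‖ / R1) ^ M * (Y + (D + eta f R M + 1)) - eta f R M ≤ (f z).re ∧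
    (f z).re * (1 - (‖z‖ / R1) ^ M) ≤ (Y + (D + eta f R M + 1)) * (1 + (‖z‖ / R1) ^ M) +
      eta f R M * (1 - (‖z‖ / R1) ^ M) := by
  have hR : 0 < R := hR1.trans hR1R
  set η := eta f R M with hη
  have hη0 : 0 ≤ η := Finset.sum_nonneg fun n _ => by positivity
  set b0 : ℂ := f 0 with hb0
  -- the function without its lower coefficients
  set h : ℂ → ℂ := fun z => b0 + z ^ M * E f M z with hh
  set p : ℂ → ℂ := fun z => ∑ n ∈ Finset.Ico 1 M, E f n 0 * z ^ n with hp
  have hfh : ∀ z, f z = h z + p z := by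
    intro z
    rw [E_expand f M z, hh, hp]
    simp only
    rw [Finset.range_eq_Ico, Finset.sum_eq_sum_Ico_succ_bot (by omega : 0 < M)]
    simp only [pow_zero, mul_one, zero_add]
    have : E f 0 0 = b0 := rfl
    rw [this]; ring
  have hpb : ∀ z : ℂ, ‖z‖ ≤ R → ‖p z‖ ≤ η := by
    intro z hz
    refine (norm_sum_le _ _).trans (Finset.sum_le_sum fun n _ => ?_)
    rw [norm_mul, norm_pow]
    gcongr
  set D' : ℝ := D + η + 1 with hD'
  have hhre : ∀ z : ℂ, ‖z‖ < R → 1 ≤ (h z).re + D' := by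
    intro z hz
    have h1 := hD z hz
    have h2 := hpb z hz.le
    have h3 := Complex.abs_re_le_norm (p z)
    have h4 : (f z).re = (h z).re + (p z).re := by rw [hfh]; simp
    have h5 := (abs_le.1 (h3.trans h2)).2
    rw [hD']; linarith
  set b : ℂ := b0 + (D' : ℂ) with hb
  have hbre : b.re = b0.re + D' := by simp [hb]
  have hb1 : 1 ≤ b.re := by
    have := hhre 0 (by simpa using hR)
    rw [hbre]
    have e : h 0 = b0 := by
      simp only [hh]
      rw [zero_pow (by omega), zero_mul, add_zero]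
    rwa [e] at this
  set U : ℂ → ℂ := fun z => E f M z / (h z + D' + (starRingEnd ℂ) b) with hU
  have hden : ∀ z : ℂ, ‖z‖ < R → h z + D' + (starRingEnd ℂ) b ≠ 0 := by
    intro z hz h0
    have h1 := hhre z hz
    have h2 := congrArg Complex.re h0
    simp only [add_re, ofReal_re, conj_re, zero_re] at h2
    linarith
  have hhd : DifferentiableOn ℂ h (ball 0 R) := by
    have := E_diff hR hf M
    exact (((differentiable_pow M).differentiableOn).mul this).const_add _
  have hUd : DifferentiableOn ℂ U (ball 0 R) := by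
    refine (E_diff hR hf M).div ((hhd.add_const _).add_const _) ?_
    intro z hz
    rw [mem_ball, dist_zero_right] at hz
    exact hden z hz
  have hsub : closedBall (0:ℂ) R1 ⊆ ball 0 R := by
    intro w hw
    rw [mem_closedBall, dist_zero_right] at hw
    rw [mem_ball, dist_zero_right]; linarith
  have hUc : DiffContOnCl ℂ U (ball 0 R1) := by
    refine DifferentiableOn.diffContOnCl ?_
    rw [closure_ball _ hR1.ne']
    exact hUd.mono hsub
  have hkey : ∀ w : ℂ, ‖w‖ < R → ‖w ^ M * E f M w‖ ≤ ‖h w + D' + (starRingEnd ℂ) b‖ := by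
    intro w hw
    have h1 := norm_refl_le (a := h w + D') (b := b)
      (by have := hhre w hw; simp only [add_re, ofReal_re]; linarith) (by linarith)
    have e : h w + D' - b = w ^ M * E f M w := by simp only [hh, hb]; ring
    rwa [e] at h1
  have hfr : ∀ w ∈ frontier (ball (0:ℂ) R1), ‖U w‖ ≤ (1 / R1) ^ M := by
    intro w hw
    rw [frontier_ball _ hR1.ne', mem_sphere, dist_zero_right] at hw
    have h1 := hkey w (by linarith)
    rw [norm_mul, norm_pow, hw] at h1
    have h2 : 0 < ‖h w + D' + (starRingEnd ℂ) b‖ := norm_pos_iff.2 (hden w (by linarith))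
    simp only [hU]
    rw [norm_div, div_le_iff₀ h2, div_pow, one_pow, div_mul_eq_mul_div, one_mul,
      le_div_iff₀ (pow_pos hR1 M)]
    linarith
  have hUz : ‖U z‖ ≤ (1 / R1) ^ M := by
    refine Complex.norm_le_of_forall_mem_frontier_norm_le isBounded_ball hUc hfr ?_
    rw [closure_ball _ hR1.ne', mem_closedBall, dist_zero_right]
    exact hz.le
  have hzR : ‖z‖ < R := hz.trans hR1R
  set w : ℝ := (‖z‖ / R1) ^ M with hw
  have hw0 : 0 ≤ w := by positivity
  have hw1 : w < 1 := by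
    have : ‖z‖ / R1 < 1 := (div_lt_one hR1).2 hz
    exact pow_lt_one₀ (by positivity) this (by omega)
  have h1 : ‖(h z + D') - b‖ ≤ w * ‖(h z + D') + (starRingEnd ℂ) b‖ := by
    have e : h z + D' - b = z ^ M * E f M z := by simp only [hh, hb]; ring
    have h2 : 0 < ‖h z + D' + (starRingEnd ℂ) b‖ := norm_pos_iff.2 (hden z hzR)
    have h3 : ‖E f M z‖ = ‖U z‖ * ‖h z + D' + (starRingEnd ℂ) b‖ := by
      simp only [hU]
      rw [norm_div, div_mul_cancel₀ _ h2.ne']
    rw [e, norm_mul, norm_pow, h3]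
    have h4 : w = ‖z‖ ^ M * (1 / R1) ^ M := by rw [hw, div_pow]; ring
    rw [h4, mul_assoc]
    gcongr
  obtain ⟨h2, h3⟩ := re_of_refl (a := h z + D') (b := b)
    (by have := hhre z hzR; simp only [add_re, ofReal_re]; linarith) (by linarith) hw0 hw1 h1
  simp only [add_re, ofReal_re] at h2 h3
  rw [hbre] at h2 h3
  have h4 : (f z).re = (h z).re + (p z).re := by rw [hfh]; simp
  have h5 := abs_le.1 ((Complex.abs_re_le_norm (p z)).trans (hpb z hzR.le))
  have h6 := abs_le.1 ((Complex.abs_re_le_norm b0).trans hY)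
  constructor
  · -- lower bound
    have h7 : (b0.re + D') * (1 - 2 * w) ≤ (h z).re + D' := by
      have h8 : (b0.re + D') * (1 - w) * (1 - w) ≤ ((h z).re + D') * (1 + w) * (1 - w) :=
        mul_le_mul_of_nonneg_right h2 (by linarith)
      have h9 : ((h z).re + D') * (1 + w) * (1 - w) ≤ (h z).re + D' := by
        have := hhre z hzR
        nlinarith [mul_nonneg (by linarith : 0 ≤ (h z).re + D') (sq_nonneg w)]
      have h10 : (b0.re + D') * (1 - 2 * w) ≤ (b0.re + D') * (1 - w) * (1 - w) := by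
        have : 0 ≤ b0.re + D' := by rw [← hbre]; linarith
        nlinarith [mul_nonneg this (sq_nonneg w)]
      linarith
    have h8 : 2 * w * (b0.re + D') ≤ 2 * w * (Y + D') := by
      have : 0 ≤ 2 * w := by linarith
      nlinarith [h6.2]
    rw [h4]
    nlinarith [h5.1, h6.1]
  · have h7 : ((h z).re + D') * (1 - w) ≤ (Y + D') * (1 + w) := by
      have : (b0.re + D') * (1 + w) ≤ (Y + D') * (1 + w) := by nlinarith [h6.2]
      linarith
    have hD1 : 0 ≤ D' * (1 - w) := by
      have h9 : (0:ℝ) ≤ D' := by rw [hD']; linarith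
      exact mul_nonneg h9 (by linarith)
    rw [h4]
    nlinarith [mul_le_mul_of_nonneg_right h5.2 (by linarith : 0 ≤ 1 - w)]

end

end Pool.Agent.Y757.LL
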